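import Mathlib

/-!
The operator-algebraic data of a locally compact quantum group `Γ` (to be applied to `Γ = Ĝ`) that
enter the question, strong amenability, and convolution semigroups of states.
-/

open scoped ComplexOrder InnerProductSpace NNReal

namespace Pool.Agent.Lib.MP_893ae4_an

variable {A : Type*} [NonUnitalCStarAlgebra A]
variable {H : Type*} [NormedAddCommGroup H] [InnerProductSpace ℂ H] [CompleteSpace H]

/-- States of a C*-algebra `A` (possibly non-unital): positive functionals of norm one. -/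
def IsState (f : StrongDual ℂ A) : Prop :=
  (∀ a : A, 0 ≤ f (star a * a)) ∧ ‖f‖ = 1

/-- The representation `π` is nondegenerate: the vectors `π(a) η` span a dense subspace. -/
def Nondegenerate (π : A →⋆ₙₐ[ℂ] (H →L[ℂ] H)) : Prop :=
  (Submodule.span ℂ {ζ : H | ∃ a η, π a η = ζ}).topologicalClosure = ⊤

/-- `f ∈ L¹`: the functional `f` lies in the norm closure in the dual of `A` of the span of the
functionals `a ↦ ⟪ξ, π(a) η⟫`, i.e. `f` factors through `π` and extends to a normal functional on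
the von Neumann algebra generated by `π(A)`. -/
def MemL1 (π : A →⋆ₙₐ[ℂ] (H →L[ℂ] H)) (f : StrongDual ℂ A) : Prop :=
  f ∈ (Submodule.span ℂ {g : StrongDual ℂ A | ∃ ξ η : H, ∀ a, g a = ⟪ξ, π a η⟫_ℂ}).topologicalClosure

/-- The map `T : A* → A*` is continuous on the states of `A`, from the weak* topology to the weak
topology of the Banach space `A*`. -/
def ContinuousOnStates (T : StrongDual ℂ A → StrongDual ℂ A) : Prop :=
  ∀ y : StrongDual ℂ (StrongDual ℂ A),
    ContinuousOn (fun μ : WeakDual ℂ A => y (T (WeakDual.toStrongDual μ)))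
      {μ | IsState (WeakDual.toStrongDual μ)}

/-- `conv μ ν = (μ ⊗ ν) ∘ Δ` is the convolution of functionals on `A = C₀ᵘ(Γ)`: associative,
contractive, it preserves states, and the slices `(id ⊗ ν)Δ(a)` and `(μ ⊗ id)Δ(a)` lie in `A`. -/
structure IsConvolution (conv : StrongDual ℂ A →ₗ[ℂ] StrongDual ℂ A →ₗ[ℂ] StrongDual ℂ A) :
    Prop where
  assoc : ∀ μ ν ρ, conv (conv μ ν) ρ = conv μ (conv ν ρ)
  norm_le : ∀ μ ν, ‖conv μ ν‖ ≤ ‖μ‖ * ‖ν‖
  state : ∀ μ ν, IsState μ → IsState ν → IsState (conv μ ν)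
  slice_right : ∀ (ν : StrongDual ℂ A) (a : A), ∃ b : A, ∀ μ, conv μ ν a = μ b
  slice_left : ∀ (μ : StrongDual ℂ A) (a : A), ∃ b : A, ∀ ν, conv μ ν a = ν b

/-- `ε` is the counit: a nonzero `*`-character, and a two-sided unit for the convolution. -/
structure IsCounit (conv : StrongDual ℂ A →ₗ[ℂ] StrongDual ℂ A →ₗ[ℂ] StrongDual ℂ A)
    (ε : StrongDual ℂ A) : Prop where
  mul : ∀ a b, ε (a * b) = ε a * ε b
  star : ∀ a, ε (Star.star a) = Star.star (ε a)
  ne_zero : ε ≠ 0
  right : ∀ μ, conv μ ε = μ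
  left : ∀ μ, conv ε μ = μ

/-- `rep` has the properties of the reducing morphism `Λ : C₀ᵘ(Γ) → C₀(Γ) ⊆ B(L²(Γ))`: it is
nondegenerate, `L¹(Γ)` is a two-sided ideal of `C₀ᵘ(Γ)*`, and for `f ∈ L¹(Γ)` the maps `μ ↦ μ ⋆ f`
and `μ ↦ f ⋆ μ` are continuous from the states with the weak* topology to `L¹(Γ)` with the weak
topology. -/
structure IsReducing (conv : StrongDual ℂ A →ₗ[ℂ] StrongDual ℂ A →ₗ[ℂ] StrongDual ℂ A)
    (rep : A →⋆ₙₐ[ℂ] (H →L[ℂ] H)) : Prop where
  nondegenerate : Nondegenerate rep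
  ideal_left : ∀ μ f, MemL1 rep f → MemL1 rep (conv μ f)
  ideal_right : ∀ μ f, MemL1 rep f → MemL1 rep (conv f μ)
  continuous_left : ∀ f, MemL1 rep f → ContinuousOnStates fun μ => conv μ f
  continuous_right : ∀ f, MemL1 rep f → ContinuousOnStates fun μ => conv f μ

/-- The operator-algebraic data of a locally compact quantum group `Γ` which enter the question
(it is applied to `Γ = Ĝ`): `A = C₀ᵘ(Γ)`, `conv μ ν = (μ ⊗ ν) ∘ Δᵤ`, the counit, the reducing
morphism `rep = Λ : C₀ᵘ(Γ) → C₀(Γ) ⊆ B(L²(Γ))`. -/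
structure QuantumGroupData (A : Type*) [NonUnitalCStarAlgebra A]
    (H : Type*) [NormedAddCommGroup H] [InnerProductSpace ℂ H] [CompleteSpace H] where
  /-- convolution of functionals, `μ ⋆ ν = (μ ⊗ ν) ∘ Δ` -/
  conv : StrongDual ℂ A →ₗ[ℂ] StrongDual ℂ A →ₗ[ℂ] StrongDual ℂ A
  /-- the counit -/
  counit : StrongDual ℂ A
  /-- the reducing morphism, followed by the inclusion `C₀(Γ) ⊆ B(L²(Γ))` -/
  rep : A →⋆ₙₐ[ℂ] (H →L[ℂ] H)
  isConvolution : IsConvolution conv
  isCounit : IsCounit conv counit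
  isReducing : IsReducing conv rep

/-- `G` is strongly amenable, i.e. `Γ = Ĝ` is co-amenable: the reducing morphism is injective. -/
def QuantumGroupData.StronglyAmenable (D : QuantumGroupData A H) : Prop :=
  Function.Injective D.rep

/-- A weak*-continuous convolution semigroup of states `(μ t)_{t ≥ 0}` on `Γ`. -/
structure QuantumGroupData.IsConvolutionSemigroup (D : QuantumGroupData A H)
    (μ : ℝ≥0 → StrongDual ℂ A) : Prop where
  state : ∀ t, IsState (μ t)
  zero : μ 0 = D.counit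
  add : ∀ s t, D.conv (μ s) (μ t) = μ (s + t)
  continuous : ∀ a : A, Continuous fun t => μ t a

end Pool.Agent.Lib.MP_893ae4_an
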