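import Mathlib
import Pool.Agent.Lib.MP_893ae4_an.Defs

section

/-!
Core construction: in a Banach algebra `M` with a closed convex multiplicative set `S` of
states containing `1`, a closed ideal `L`, such that `S ∩ L` contains almost units, there is a
one-parameter semigroup `F` in `S` with `F t ∈ L` for `t > 0`.
-/

open Filter Topology Set NormedSpace

set_option linter.unusedSectionVars false

namespace Pool.Agent.Lib.MP_893ae4_an

section Algebra
variable {M : Type*} [NormedRing M] [NormOneClass M]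

theorem norm_pow_add_le {B w : M} {C : ℝ} (hB : ‖B‖ ≤ C) (hw : ‖w‖ ≤ 1) (k : ℕ) :
    ‖(B + w) ^ k‖ ≤ (C + 1) ^ k := by
  refine (norm_pow_le _ _).trans ?_
  refine pow_le_pow_left₀ (norm_nonneg _) ((norm_add_le _ _).trans ?_) k
  linarith

theorem norm_geom_le {B : M} {C : ℝ} (hB : ‖B‖ ≤ C) (k : ℕ) :
    ‖∑ i ∈ Finset.range k, (B + 1) ^ i‖ ≤ (C + 2) ^ k := by
  have hC : 0 ≤ C := (norm_nonneg _).trans hB
  induction k with
  | zero => simp
  | succ k ih =>
    rw [Finset.sum_range_succ]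
    refine (norm_add_le _ _).trans ?_
    have h1 : ‖(B + 1) ^ k‖ ≤ (C + 1) ^ k := norm_pow_add_le hB (by simp) k
    have h2 : (C + 1) ^ k ≤ (C + 2) ^ k := pow_le_pow_left₀ (by linarith) (by linarith) k
    have h3 : 0 ≤ (C + 2) ^ k := by positivity
    calc _ ≤ (C + 2) ^ k + (C + 2) ^ k := by linarith
      _ ≤ (C + 2) ^ (k + 1) := by rw [pow_succ]; nlinarith

theorem norm_pow_sub_one_mul_le {B w : M} {δ : ℝ} (hw : ‖w‖ ≤ 1) (hl : ‖w * B - B‖ ≤ δ) (k : ℕ) :
    ‖(w ^ k - 1) * B‖ ≤ k * δ := by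
  induction k with
  | zero => simp
  | succ k ih =>
    have : (w ^ (k + 1) - 1) * B = w ^ k * (w * B - B) + (w ^ k - 1) * B := by
      rw [pow_succ]; noncomm_ring
    rw [this]
    refine (norm_add_le _ _).trans ?_
    have h1 : ‖w ^ k * (w * B - B)‖ ≤ 1 * δ := by
      refine (norm_mul_le _ _).trans ?_
      refine mul_le_mul ((norm_pow_le _ _).trans (pow_le_one₀ (norm_nonneg _) hw)) hl
        (norm_nonneg _) zero_le_one
    push_cast
    linarith

theorem pow_compare {B w : M} {C δ : ℝ} (hB : ‖B‖ ≤ C) (hw : ‖w‖ ≤ 1)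
    (hl : ‖w * B - B‖ ≤ δ) (hr : ‖B * w - B‖ ≤ δ) (k : ℕ) :
    ‖(B + w) ^ k - (B + 1) ^ k - (w ^ k - 1)‖ ≤ δ * (C + 3) ^ k := by
  have hC : 0 ≤ C := (norm_nonneg _).trans hB
  have hδ : 0 ≤ δ := (norm_nonneg _).trans hl
  induction k with
  | zero => simp; positivity
  | succ k ih =>
    set G := ∑ i ∈ Finset.range k, (B + 1) ^ i with hG
    have hGB : G * B = (B + 1) ^ k - 1 := by
      have := geom_sum_mul (B + 1) k
      rw [add_sub_cancel_right] at this
      exact this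
    have key : (B + w) ^ (k + 1) - (B + 1) ^ (k + 1) - (w ^ (k + 1) - 1)
        = ((B + w) ^ k - (B + 1) ^ k - (w ^ k - 1)) * (B + w) + (w ^ k - 1) * B
          + G * (B * w - B) := by
      have : G * (B * w - B) = ((B + 1) ^ k - 1) * (w - 1) := by
        rw [← hGB]; noncomm_ring
      rw [this, pow_succ, pow_succ, pow_succ]
      noncomm_ring
    rw [key]
    have h1 : ‖((B + w) ^ k - (B + 1) ^ k - (w ^ k - 1)) * (B + w)‖
        ≤ δ * (C + 3) ^ k * (C + 1) := by
      refine (norm_mul_le _ _).trans ?_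
      refine mul_le_mul ih ((norm_add_le _ _).trans (by linarith)) (norm_nonneg _) (by positivity)
    have h2 : ‖(w ^ k - 1) * B‖ ≤ k * δ := norm_pow_sub_one_mul_le hw hl k
    have h3 : ‖G * (B * w - B)‖ ≤ (C + 2) ^ k * δ := by
      refine (norm_mul_le _ _).trans ?_
      exact mul_le_mul (norm_geom_le hB k) hr (norm_nonneg _) (by positivity)
    have h4 : (C + 2) ^ k ≤ (C + 3) ^ k := pow_le_pow_left₀ (by linarith) (by linarith) k
    have h5 : (k : ℝ) ≤ (C + 3) ^ k := by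
      calc (k : ℝ) ≤ 2 ^ k := by exact_mod_cast (Nat.lt_two_pow_self).le
        _ ≤ (C + 3) ^ k := pow_le_pow_left₀ (by norm_num) (by linarith) k
    have h6 : (k : ℝ) * δ ≤ δ * (C + 3) ^ k := by nlinarith
    have h7 : (C + 2) ^ k * δ ≤ δ * (C + 3) ^ k := by nlinarith
    calc _ ≤ δ * (C + 3) ^ k * (C + 1) + δ * (C + 3) ^ k + δ * (C + 3) ^ k := by
          refine (norm_add_le _ _).trans (add_le_add ((norm_add_le _ _).trans ?_) (h3.trans h7))
          exact add_le_add h1 (h2.trans h6)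
      _ = δ * (C + 3) ^ (k + 1) := by rw [pow_succ]; ring

theorem norm_pow_sub_pow_le {B w : M} {C δ : ℝ} (hB : ‖B‖ ≤ C) (hw : ‖w‖ ≤ 1)
    (hl : ‖w * B - B‖ ≤ δ) (hr : ‖B * w - B‖ ≤ δ) (k : ℕ) :
    ‖(B + w) ^ k - (B + 1) ^ k‖ ≤ 2 + δ * (C + 3) ^ k := by
  have h := pow_compare hB hw hl hr k
  have h2 : ‖w ^ k - 1‖ ≤ 2 := by
    refine (norm_sub_le _ _).trans ?_
    have := (norm_pow_le w k).trans (pow_le_one₀ (norm_nonneg _) hw)
    rw [norm_one]; linarith
  calc ‖(B + w) ^ k - (B + 1) ^ k‖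
      = ‖((B + w) ^ k - (B + 1) ^ k - (w ^ k - 1)) + (w ^ k - 1)‖ := by rw [sub_add_cancel]
    _ ≤ _ := (norm_add_le _ _).trans (by linarith)

theorem pow_sub_pow_eq (x y : M) (k : ℕ) :
    x ^ k - y ^ k = ∑ i ∈ Finset.range k, x ^ i * ((x - y) * y ^ (k - 1 - i)) := by
  induction k with
  | zero => simp
  | succ k ih =>
    rw [Finset.sum_range_succ]
    have h1 : x ^ (k + 1) - y ^ (k + 1) = (x ^ k - y ^ k) * y + x ^ k * (x - y) := by
      rw [pow_succ, pow_succ]; noncomm_ring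
    rw [h1, ih, Finset.sum_mul]
    congr 1
    · refine Finset.sum_congr rfl fun i hi => ?_
      rw [Finset.mem_range] at hi
      have : k + 1 - 1 - i = (k - 1 - i) + 1 := by omega
      rw [this, pow_succ]
      noncomm_ring
    · simp

end Algebra

section Exp
variable {M : Type*} [NormedRing M] [NormOneClass M] [NormedAlgebra ℝ M] [CompleteSpace M]

theorem hasSum_exp (x : M) : HasSum (fun n : ℕ => ((n.factorial : ℝ)⁻¹) • x ^ n) (exp x) :=
  exp_series_hasSum_exp' (𝕂 := ℝ) x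

theorem hasSum_exp_sub (t : ℝ) (x y : M) :
    HasSum (fun n : ℕ => ((n.factorial : ℝ)⁻¹ * t ^ n) • (x ^ n - y ^ n))
      (exp (t • x) - exp (t • y)) := by
  have h := (hasSum_exp (t • x)).sub (hasSum_exp (t • y))
  have e : (fun n : ℕ => ((n.factorial : ℝ)⁻¹ * t ^ n) • (x ^ n - y ^ n))
      = fun n : ℕ => ((n.factorial : ℝ)⁻¹) • (t • x) ^ n - ((n.factorial : ℝ)⁻¹) • (t • y) ^ n := by
    funext n
    rw [smul_pow, smul_pow, smul_smul, smul_smul, ← smul_sub]
  rw [e]
  exact h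

theorem hasSum_real_exp (x : ℝ) : HasSum (fun n : ℕ => (n.factorial : ℝ)⁻¹ * x ^ n) (Real.exp x) := by
  have h := hasSum_exp (M := ℝ) x
  rw [← Real.exp_eq_exp_ℝ] at h
  simpa using h

/-- Norm comparison of the two exponentials. -/
theorem norm_exp_sub_le {B w : M} {C δ t : ℝ} (ht : 0 ≤ t) (hB : ‖B‖ ≤ C) (hw : ‖w‖ ≤ 1)
    (hl : ‖w * B - B‖ ≤ δ) (hr : ‖B * w - B‖ ≤ δ) :
    ‖exp (t • (B + w)) - exp (t • (B + 1))‖ ≤ 2 * Real.exp t + δ * Real.exp (t * (C + 3)) := by
  have hδ : 0 ≤ δ := (norm_nonneg _).trans hl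
  rw [← (hasSum_exp_sub t (B + w) (B + 1)).tsum_eq]
  have hg : HasSum (fun n : ℕ => 2 * ((n.factorial : ℝ)⁻¹ * t ^ n)
      + δ * ((n.factorial : ℝ)⁻¹ * (t * (C + 3)) ^ n))
      (2 * Real.exp t + δ * Real.exp (t * (C + 3))) :=
    ((hasSum_real_exp t).mul_left 2).add ((hasSum_real_exp (t * (C + 3))).mul_left δ)
  refine tsum_of_norm_bounded hg fun n => ?_
  rw [norm_smul, Real.norm_eq_abs, abs_of_nonneg (by positivity)]
  refine (mul_le_mul_of_nonneg_left (norm_pow_sub_pow_le hB hw hl hr n) (by positivity)).trans ?_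
  rw [mul_pow]
  apply le_of_eq
  ring

/-- Tail of the exponential series. -/
theorem exists_tail (x : ℝ) {ε : ℝ} (hε : 0 < ε) :
    ∃ K : ℕ, ∃ T : ℝ, T ≤ ε ∧ HasSum (fun n : ℕ => if n < K then 0 else (n.factorial : ℝ)⁻¹ * x ^ n) T := by
  have h := hasSum_real_exp x
  have h1 := h.tendsto_sum_nat
  have h2 : ∀ᶠ K in atTop, Real.exp x - ε < ∑ n ∈ Finset.range K, (n.factorial : ℝ)⁻¹ * x ^ n :=
    h1.eventually (lt_mem_nhds (by linarith))
  obtain ⟨K, hK⟩ := h2.exists
  refine ⟨K, Real.exp x - ∑ n ∈ Finset.range K, (n.factorial : ℝ)⁻¹ * x ^ n, by linarith, ?_⟩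
  have h3 : HasSum (fun n : ℕ => if n < K then (n.factorial : ℝ)⁻¹ * x ^ n else 0)
      (∑ n ∈ Finset.range K, (n.factorial : ℝ)⁻¹ * x ^ n) := by
    have : ∑ n ∈ Finset.range K, (n.factorial : ℝ)⁻¹ * x ^ n
        = ∑ n ∈ Finset.range K, if n < K then (n.factorial : ℝ)⁻¹ * x ^ n else 0 := by
      refine Finset.sum_congr rfl fun n hn => ?_
      rw [Finset.mem_range] at hn
      rw [if_pos hn]
    rw [this]
    refine hasSum_sum_of_ne_finset_zero fun n hn => ?_
    rw [Finset.mem_range] at hn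
    rw [if_neg hn]
  have e : (fun n : ℕ => if n < K then 0 else (n.factorial : ℝ)⁻¹ * x ^ n)
      = fun n : ℕ => (n.factorial : ℝ)⁻¹ * x ^ n
        - (if n < K then (n.factorial : ℝ)⁻¹ * x ^ n else 0) := by
    funext n
    by_cases hn : n < K <;> simp [hn]
  rw [e]
  exact h.sub h3

/-- Test comparison of the two exponentials. -/
theorem test_exp_sub_le {B w : M} {C c η t : ℝ} {K : ℕ} {T : ℝ} (ht : 0 ≤ t) (ht1 : t ≤ 1)
    (hB : ‖B‖ ≤ C) (hw : ‖w‖ ≤ 1) (hη : 0 ≤ η) (hc : 0 ≤ c)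
    (φ : M →L[ℝ] ℂ) (hφ : ∀ m, ‖φ m‖ ≤ c * ‖m‖)
    (hT : HasSum (fun n : ℕ => if n < K then 0 else (n.factorial : ℝ)⁻¹ * (C + 1) ^ n) T)
    (h : ∀ j < K, ∀ m, ‖φ (m * ((w - 1) * (B + 1) ^ j))‖ ≤ η * ‖m‖) :
    ‖φ (exp (t • (B + w)) - exp (t • (B + 1)))‖ ≤ η * Real.exp (2 * (C + 1)) + 2 * c * T := by
  have hC : 0 ≤ C := (norm_nonneg _).trans hB
  have hs := (hasSum_exp_sub t (B + w) (B + 1)).mapL φ
  rw [← hs.tsum_eq]
  have hg : HasSum (fun n : ℕ => η * ((n.factorial : ℝ)⁻¹ * (2 * (C + 1)) ^ n)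
      + 2 * c * (if n < K then 0 else (n.factorial : ℝ)⁻¹ * (C + 1) ^ n))
      (η * Real.exp (2 * (C + 1)) + 2 * c * T) :=
    ((hasSum_real_exp _).mul_left η).add (hT.mul_left _)
  refine tsum_of_norm_bounded hg fun n => ?_
  have e1 : φ (((n.factorial : ℝ)⁻¹ * t ^ n) • ((B + w) ^ n - (B + 1) ^ n))
      = ((n.factorial : ℝ)⁻¹ * t ^ n) • φ ((B + w) ^ n - (B + 1) ^ n) := by
    rw [map_smul]
  rw [e1, norm_smul, Real.norm_eq_abs, abs_of_nonneg (by positivity)]
  have htn : t ^ n ≤ 1 := pow_le_one₀ ht ht1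
  by_cases hn : n < K
  · rw [if_pos hn, mul_zero, add_zero]
    have h1 : ‖φ ((B + w) ^ n - (B + 1) ^ n)‖ ≤ n * ((C + 1) ^ n * η) := by
      rw [pow_sub_pow_eq, map_sum]
      refine (norm_sum_le _ _).trans ?_
      have : ∀ i ∈ Finset.range n, ‖φ ((B + w) ^ i * ((B + w - (B + 1)) * (B + 1) ^ (n - 1 - i)))‖
          ≤ (C + 1) ^ n * η := by
        intro i hi
        rw [Finset.mem_range] at hi
        have e2 : B + w - (B + 1) = w - 1 := by abel
        rw [e2]
        refine (h (n - 1 - i) (by omega) _).trans ?_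
        rw [mul_comm]
        refine mul_le_mul_of_nonneg_right ((norm_pow_add_le hB hw i).trans ?_) hη
        exact pow_le_pow_right₀ (by linarith) hi.le
      refine (Finset.sum_le_sum this).trans ?_
      simp
    have h2 : (n : ℝ) ≤ 2 ^ n := by exact_mod_cast (Nat.lt_two_pow_self).le
    calc (n.factorial : ℝ)⁻¹ * t ^ n * ‖φ ((B + w) ^ n - (B + 1) ^ n)‖
        ≤ (n.factorial : ℝ)⁻¹ * 1 * (2 ^ n * ((C + 1) ^ n * η)) := by
          refine mul_le_mul (mul_le_mul_of_nonneg_left htn (by positivity))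
            (h1.trans (mul_le_mul_of_nonneg_right h2 (by positivity))) (norm_nonneg _)
            (by positivity)
      _ = η * ((n.factorial : ℝ)⁻¹ * (2 * (C + 1)) ^ n) := by rw [mul_pow]; ring
  · rw [if_neg hn]
    have h1 : ‖φ ((B + w) ^ n - (B + 1) ^ n)‖ ≤ c * (2 * (C + 1) ^ n) := by
      refine (hφ _).trans (mul_le_mul_of_nonneg_left ?_ hc)
      refine (norm_sub_le _ _).trans ?_
      have a1 := norm_pow_add_le hB hw n
      have a2 := norm_pow_add_le hB (w := 1) (by simp) n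
      linarith
    have h0 : 0 ≤ η * ((n.factorial : ℝ)⁻¹ * (2 * (C + 1)) ^ n) := by positivity
    calc (n.factorial : ℝ)⁻¹ * t ^ n * ‖φ ((B + w) ^ n - (B + 1) ^ n)‖
        ≤ (n.factorial : ℝ)⁻¹ * 1 * (c * (2 * (C + 1) ^ n)) := by
          refine mul_le_mul (mul_le_mul_of_nonneg_left htn (by positivity)) h1 (norm_nonneg _)
            (by positivity)
      _ = 2 * c * ((n.factorial : ℝ)⁻¹ * (C + 1) ^ n) := by ring
      _ ≤ _ := by linarith

end Exp

section Semigroup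
variable {M : Type*} [NormedRing M] [NormOneClass M] [NormedAlgebra ℝ M] [CompleteSpace M]

/-- The normalised exponential of a nonnegative multiple of a state is a state. -/
theorem exp_state {S : Set M} (hconv : Convex ℝ S) (hcl : IsClosed S) (h1 : (1 : M) ∈ S)
    (hmul : ∀ x ∈ S, ∀ y ∈ S, x * y ∈ S) {s : M} (hs : s ∈ S) {r : ℝ} (hr : 0 ≤ r) :
    Real.exp (-r) • exp (r • s) ∈ S := by
  have hpow : ∀ k : ℕ, s ^ k ∈ S := by
    intro k
    induction k with
    | zero => simpa using h1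
    | succ k ih => rw [pow_succ]; exact hmul _ ih _ hs
  set p : ℕ → ℝ := fun k => (k.factorial : ℝ)⁻¹ * r ^ k with hp
  have hp0 : ∀ k, 0 ≤ p k := fun k => by simp only [hp]; positivity
  have hW : Tendsto (fun n => ∑ k ∈ Finset.range n, p k) atTop (𝓝 (Real.exp r)) :=
    (hasSum_real_exp r).tendsto_sum_nat
  have hV : Tendsto (fun n => ∑ k ∈ Finset.range n, p k • s ^ k) atTop (𝓝 (exp (r • s))) := by
    have := (hasSum_exp (r • s)).tendsto_sum_nat
    refine this.congr fun n => Finset.sum_congr rfl fun k _ => ?_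
    rw [smul_pow, smul_smul]
  have hlim : Tendsto (fun n => (∑ k ∈ Finset.range n, p k)⁻¹ • ∑ k ∈ Finset.range n, p k • s ^ k)
      atTop (𝓝 ((Real.exp r)⁻¹ • exp (r • s))) :=
    (hW.inv₀ (Real.exp_ne_zero r)).smul hV
  rw [Real.exp_neg]
  refine hcl.mem_of_tendsto hlim ?_
  filter_upwards [eventually_ge_atTop 1] with n hn
  have hWpos : 0 < ∑ k ∈ Finset.range n, p k := by
    refine Finset.sum_pos' (fun k _ => hp0 k) ⟨0, Finset.mem_range.mpr hn, ?_⟩
    simp [hp]
  rw [Finset.smul_sum]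
  simp_rw [smul_smul]
  refine hconv.sum_mem (fun k _ => mul_nonneg (inv_nonneg.mpr hWpos.le) (hp0 k)) ?_
    (fun k _ => hpow k)
  rw [← Finset.mul_sum, inv_mul_cancel₀ hWpos.ne']

theorem exp_sub_one_mem {L : Submodule ℝ M} (hLcl : IsClosed (L : Set M))
    (hLl : ∀ x, ∀ y ∈ L, x * y ∈ L) {x : M} (hx : x ∈ L) : exp x - 1 ∈ L := by
  have h := hasSum_exp x
  have h2 := (hasSum_nat_add_iff' 1).mpr h
  simp only [Finset.range_one, Finset.sum_singleton, Nat.factorial_zero, Nat.cast_one, inv_one,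
    pow_zero, one_smul] at h2
  refine hLcl.mem_of_tendsto h2.tendsto_sum_nat (Eventually.of_forall fun n => ?_)
  refine L.sum_mem fun k _ => L.smul_mem _ ?_
  rw [pow_succ]
  exact hLl _ _ hx

theorem exp_smul_add_one (t : ℝ) (B : M) :
    exp (t • (B + 1)) = Real.exp t • exp (t • B) := by
  rw [smul_add]
  have hc : Commute (t • B) (t • (1 : M)) := (Commute.one_right _).smul_right t
  rw [exp_add_of_commute_of_mem_ball (𝕂 := ℝ) hc (by simp [expSeries_radius_eq_top])
    (by simp [expSeries_radius_eq_top])]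
  have h1 : exp (t • (1 : M)) = Real.exp t • (1 : M) := by
    have h := hasSum_exp (t • (1 : M))
    have h2 := (hasSum_real_exp t).smul_const (1 : M)
    have e : (fun n : ℕ => ((n.factorial : ℝ)⁻¹) • (t • (1 : M)) ^ n)
        = fun n : ℕ => ((n.factorial : ℝ)⁻¹ * t ^ n) • (1 : M) := by
      funext n
      rw [smul_pow, one_pow, smul_smul]
    rw [e] at h
    exact h.unique h2
  rw [h1, mul_smul_comm, mul_one]

/-- One step of the construction. -/
def Step (φ : ℕ → M →L[ℝ] ℂ) (n : ℕ) (B w : M) : Prop :=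
  ‖w * B - B‖ ≤ (1 / 2 : ℝ) ^ n ∧ ‖B * w - B‖ ≤ (1 / 2 : ℝ) ^ n ∧
    ∀ i < n, ∀ t : ℝ, 0 ≤ t → t ≤ 1 →
      ‖φ i (exp (t • (B + w)) - exp (t • (B + 1)))‖ ≤ (1 / 2 : ℝ) ^ n

theorem exists_step {S : Set M} (hnorm : ∀ s ∈ S, ‖s‖ ≤ 1) {L : Submodule ℝ M}
    (φ : ℕ → M →L[ℝ] ℂ)
    (hU : ∀ B ∈ L, ∀ n : ℕ, ∀ δ : ℝ, 0 < δ → ∃ w ∈ S, w ∈ L ∧ ‖w * B - B‖ ≤ δ ∧
      ‖B * w - B‖ ≤ δ ∧ ∀ i < n, ∀ j < n, ∀ m, ‖φ i (m * ((w - 1) * (B + 1) ^ j))‖ ≤ δ * ‖m‖)
    (B : M) (hB : B ∈ L) (n : ℕ) : ∃ w ∈ S, w ∈ L ∧ Step φ n B w := by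
  set c : ℝ := ∑ i ∈ Finset.range n, ‖φ i‖ with hc
  have hc0 : 0 ≤ c := Finset.sum_nonneg fun i _ => norm_nonneg _
  have h2n : (0 : ℝ) < (1 / 2) ^ n := by positivity
  obtain ⟨K, T, hT, hK⟩ := exists_tail (‖B‖ + 1) (ε := (1 / 2) ^ n / (4 * (c + 1)))
    (by positivity)
  set δ : ℝ := (1 / 2) ^ n / (2 * Real.exp (2 * (‖B‖ + 1))) with hδ
  have hδ0 : 0 < δ := by positivity
  obtain ⟨w, hwS, hwL, h1, h2, h3⟩ := hU B hB (max n K) δ hδ0
  have hδle : δ ≤ (1 / 2) ^ n := by
    rw [hδ]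
    refine div_le_self h2n.le ?_
    have : (1 : ℝ) ≤ Real.exp (2 * (‖B‖ + 1)) := Real.one_le_exp (by positivity)
    linarith
  refine ⟨w, hwS, hwL, h1.trans hδle, h2.trans hδle, fun i hi t ht ht1 => ?_⟩
  have hφ : ∀ m, ‖φ i m‖ ≤ c * ‖m‖ := fun m =>
    ((φ i).le_opNorm m).trans (mul_le_mul_of_nonneg_right
      (Finset.single_le_sum (f := fun i => ‖φ i‖) (fun i _ => norm_nonneg _)
        (Finset.mem_range.mpr hi)) (norm_nonneg _))
  refine (test_exp_sub_le ht ht1 le_rfl (hnorm w hwS) hδ0.le hc0 (φ i) hφ hK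
    (fun j hj m => h3 i (lt_of_lt_of_le hi (le_max_left _ _)) j
      (lt_of_lt_of_le hj (le_max_right _ _)) m)).trans ?_
  have e1 : δ * Real.exp (2 * (‖B‖ + 1)) = (1 / 2) ^ n / 2 := by
    rw [hδ]
    have := Real.exp_ne_zero (2 * (‖B‖ + 1))
    field_simp
  have e2 : 2 * c * T ≤ (1 / 2) ^ n / 2 := by
    calc 2 * c * T ≤ 2 * c * ((1 / 2) ^ n / (4 * (c + 1))) :=
          mul_le_mul_of_nonneg_left hT (by positivity)
      _ = ((1 / 2) ^ n / 2) * (c / (c + 1)) := by field_simp; ring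
      _ ≤ ((1 / 2) ^ n / 2) * 1 := by
          refine mul_le_mul_of_nonneg_left ?_ (by positivity)
          rw [div_le_one (by positivity)]
          linarith
      _ = _ := by ring
  linarith

/-- The approximating semigroups. -/
noncomputable def E (w : ℕ → M) (n : ℕ) (t : ℝ) : M :=
  Real.exp (-(t * n)) • exp (t • ∑ k ∈ Finset.range n, w k)

theorem E_zero (w : ℕ → M) (t : ℝ) : E w 0 t = 1 := by
  simp [E]

theorem E_at_zero (w : ℕ → M) (n : ℕ) : E w n 0 = 1 := by
  simp [E]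

theorem E_eq (w : ℕ → M) (n : ℕ) (t : ℝ) :
    E w n t = Real.exp (-(t * (n + 1))) • exp (t • (∑ k ∈ Finset.range n, w k + 1)) := by
  rw [exp_smul_add_one, smul_smul, ← Real.exp_add, E]
  congr 2
  ring

theorem E_succ (w : ℕ → M) (n : ℕ) (t : ℝ) :
    E w (n + 1) t = Real.exp (-(t * (n + 1))) • exp (t • (∑ k ∈ Finset.range n, w k + w n)) := by
  rw [E, Finset.sum_range_succ]
  push_cast
  rfl

theorem E_add (w : ℕ → M) (n : ℕ) (s t : ℝ) : E w n (s + t) = E w n s * E w n t := by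
  simp only [E]
  set B := ∑ k ∈ Finset.range n, w k
  have hc : Commute (s • B) (t • B) := ((Commute.refl B).smul_left s).smul_right t
  rw [add_smul, exp_add_of_commute_of_mem_ball (𝕂 := ℝ) hc (by simp [expSeries_radius_eq_top])
    (by simp [expSeries_radius_eq_top]), smul_mul_smul_comm, ← Real.exp_add]
  congr 2
  ring

theorem continuous_E (w : ℕ → M) (n : ℕ) : Continuous (E w n) := by
  unfold E
  have h : Continuous (exp : M → M) := by
    letI : NormedAlgebra ℚ M := NormedAlgebra.restrictScalars ℚ ℝ M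
    exact exp_continuous
  fun_prop

theorem norm_sum_le_card {S : Set M} (hnorm : ∀ s ∈ S, ‖s‖ ≤ 1) {w : ℕ → M} (hw : ∀ n, w n ∈ S)
    (n : ℕ) : ‖∑ k ∈ Finset.range n, w k‖ ≤ n := by
  refine (norm_sum_le _ _).trans ((Finset.sum_le_sum fun k _ => hnorm _ (hw k)).trans ?_)
  simp

theorem E_mem {S : Set M} (hconv : Convex ℝ S) (hcl : IsClosed S) (h1 : (1 : M) ∈ S)
    (hmul : ∀ x ∈ S, ∀ y ∈ S, x * y ∈ S) {w : ℕ → M} (hw : ∀ n, w n ∈ S) (n : ℕ) {t : ℝ}
    (ht : 0 ≤ t) : E w n t ∈ S := by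
  rcases Nat.eq_zero_or_pos n with hn | hn
  · subst hn; rw [E_zero]; exact h1
  · have hn' : (0 : ℝ) < n := by exact_mod_cast hn
    have hs : ((n : ℝ)⁻¹ • ∑ k ∈ Finset.range n, w k) ∈ S := by
      rw [Finset.smul_sum]
      refine hconv.sum_mem (fun k _ => by positivity) ?_ (fun k _ => hw k)
      simp [hn'.ne']
    have := exp_state hconv hcl h1 hmul hs (r := t * n) (by positivity)
    rw [smul_smul, mul_assoc, mul_inv_cancel₀ hn'.ne', mul_one] at this
    exact this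

/-- **Core theorem.** -/
theorem core {S : Set M} (hconv : Convex ℝ S) (hcl : IsClosed S) (h1 : (1 : M) ∈ S)
    (hmul : ∀ x ∈ S, ∀ y ∈ S, x * y ∈ S) (hnorm : ∀ s ∈ S, ‖s‖ ≤ 1)
    {L : Submodule ℝ M} (hLcl : IsClosed (L : Set M))
    (hLl : ∀ x, ∀ y ∈ L, x * y ∈ L) (φ : ℕ → M →L[ℝ] ℂ)
    (hU : ∀ B ∈ L, ∀ n : ℕ, ∀ δ : ℝ, 0 < δ → ∃ w ∈ S, w ∈ L ∧ ‖w * B - B‖ ≤ δ ∧
      ‖B * w - B‖ ≤ δ ∧ ∀ i < n, ∀ j < n, ∀ m, ‖φ i (m * ((w - 1) * (B + 1) ^ j))‖ ≤ δ * ‖m‖) :
    ∃ F : ℝ → M, F 0 = 1 ∧ (∀ s t, 0 ≤ s → 0 ≤ t → F (s + t) = F s * F t) ∧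
      (∀ t, 0 < t → F t ∈ S ∧ F t ∈ L) ∧ ∀ i, ContinuousOn (fun t => φ i (F t)) (Ici 0) := by
  -- construct the sequence
  choose! f hfS hfL hfStep using fun (B : M) (n : ℕ) (hB : B ∈ L) =>
    exists_step hnorm φ hU B hB n
  let seq : ℕ → M := fun n => Nat.rec 0 (fun n B => B + f B n) n
  have hseq : ∀ n, seq (n + 1) = seq n + f (seq n) n := fun n => rfl
  have hseqL : ∀ n, seq n ∈ L := by
    intro n
    induction n with
    | zero => exact L.zero_mem
    | succ n ih => rw [hseq]; exact L.add_mem ih (hfL _ _ ih)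
  let w : ℕ → M := fun n => f (seq n) n
  have hsum : ∀ n, ∑ k ∈ Finset.range n, w k = seq n := by
    intro n
    induction n with
    | zero => rfl
    | succ n ih => rw [Finset.sum_range_succ, ih]
  have hwS : ∀ n, w n ∈ S := fun n => hfS _ _ (hseqL n)
  have hstep : ∀ n, Step φ n (∑ k ∈ Finset.range n, w k) (w n) := by
    intro n
    rw [hsum]
    exact hfStep _ _ (hseqL n)
  -- norm bound
  have hbd : ∀ n t, 0 ≤ t → ‖E w (n + 1) t - E w n t‖
      ≤ 2 * Real.exp (-t) ^ n + (1 / 2 : ℝ) ^ n * Real.exp (2 * t) := by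
    intro n t ht
    obtain ⟨s1, s2, -⟩ := hstep n
    rw [E_succ, E_eq, ← smul_sub, norm_smul, Real.norm_eq_abs, abs_of_pos (Real.exp_pos _)]
    have h := norm_exp_sub_le ht (norm_sum_le_card hnorm hwS n) (hnorm _ (hwS n)) s1 s2
    refine (mul_le_mul_of_nonneg_left h (Real.exp_pos _).le).trans (le_of_eq ?_)
    rw [mul_add, ← Real.exp_nat_mul]
    have e1 : Real.exp (-(t * (n + 1))) * (2 * Real.exp t) = 2 * Real.exp (n * -t) := by
      rw [mul_left_comm, ← Real.exp_add]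
      congr 2
      ring
    have e2 : Real.exp (-(t * (n + 1))) * ((1 / 2 : ℝ) ^ n * Real.exp (t * (n + 3)))
        = (1 / 2 : ℝ) ^ n * Real.exp (2 * t) := by
      rw [mul_left_comm, ← Real.exp_add]
      congr 2
      ring
    rw [e1, e2]
  have htest : ∀ i n t, i < n → 0 ≤ t → t ≤ 1 → ‖φ i (E w (n + 1) t - E w n t)‖
      ≤ (1 / 2 : ℝ) ^ n := by
    intro i n t hi ht ht1
    obtain ⟨-, -, s3⟩ := hstep n
    rw [E_succ, E_eq, ← smul_sub, map_smul, norm_smul, Real.norm_eq_abs,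
      abs_of_pos (Real.exp_pos _)]
    refine (mul_le_of_le_one_left (norm_nonneg _) ?_).trans (s3 i hi t ht ht1)
    rw [Real.exp_le_one_iff]
    have : 0 ≤ t * (n + 1) := by positivity
    linarith
  have hE1 : ∀ n t, 0 ≤ t → ‖E w n t‖ ≤ 1 := fun n t ht =>
    hnorm _ (E_mem hconv hcl h1 hmul hwS n ht)
  -- definition of the semigroup
  set D : ℕ → ℝ → M := fun n t => E w (n + 1) t - E w n t with hD
  have hDc : ∀ n, Continuous (D n) := fun n => (continuous_E w (n + 1)).sub (continuous_E w n)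
  let F : ℝ → M := fun t => 1 + ∑' n, D n t
  have hD0 : ∀ n, D n 0 = 0 := fun n => by simp [hD, E_at_zero]
  have hF0 : F 0 = 1 := by
    simp only [F, hD0, tsum_zero, add_zero]
  have hgeo : ∀ a : ℝ, 0 < a → ∀ b : ℝ,
      Summable fun n : ℕ => 2 * Real.exp (-a) ^ n + (1 / 2 : ℝ) ^ n * Real.exp (2 * b) := by
    intro a ha b
    refine Summable.add (Summable.mul_left _ ?_) (Summable.mul_right _ ?_)
    · exact summable_geometric_of_lt_one (Real.exp_pos _).le (by rw [Real.exp_lt_one_iff]; linarith)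
    · exact summable_geometric_of_lt_one (by norm_num) (by norm_num)
  have hDs : ∀ t, 0 < t → Summable fun n => D n t := fun t ht =>
    Summable.of_norm_bounded (hgeo t ht t) fun n => hbd n t ht.le
  have hlim : ∀ t, 0 < t → Tendsto (fun n => E w n t) atTop (𝓝 (F t)) := by
    intro t ht
    have h := ((hDs t ht).hasSum.tendsto_sum_nat).const_add 1
    refine h.congr fun n => ?_
    simp only [hD]
    rw [Finset.sum_range_sub (fun n => E w n t), E_zero]
    abel
  have hcontF : ContinuousOn F (Ioi 0) := by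
    intro t₀ ht₀
    rw [mem_Ioi] at ht₀
    have hs : Icc (t₀ / 2) (t₀ + 1) ∈ 𝓝 t₀ := Icc_mem_nhds (by linarith) (by linarith)
    refine ContinuousAt.continuousWithinAt (ContinuousOn.continuousAt ?_ hs)
    refine continuousOn_const.add (continuousOn_tsum (fun n => (hDc n).continuousOn)
      (hgeo (t₀ / 2) (by linarith) (t₀ + 1)) fun n x hx => ?_)
    have hx0 : 0 ≤ x := by linarith [hx.1]
    refine (hbd n x hx0).trans (add_le_add ?_ ?_)
    · refine mul_le_mul_of_nonneg_left (pow_le_pow_left₀ (Real.exp_pos _).le ?_ n) (by norm_num)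
      exact Real.exp_le_exp.mpr (by linarith [hx.1])
    · refine mul_le_mul_of_nonneg_left ?_ (by positivity)
      exact Real.exp_le_exp.mpr (by linarith [hx.2])
  refine ⟨F, hF0, ?_, ?_, ?_⟩
  · intro s t hs ht
    rcases hs.eq_or_lt with rfl | hs
    · rw [zero_add, hF0, one_mul]
    rcases ht.eq_or_lt with rfl | ht
    · rw [add_zero, hF0, mul_one]
    refine tendsto_nhds_unique (hlim (s + t) (by linarith)) ?_
    have := (hlim s hs).mul (hlim t ht)
    exact this.congr fun n => (E_add w n s t).symm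
  · intro t ht
    refine ⟨hcl.mem_of_tendsto (hlim t ht)
      (Eventually.of_forall fun n => E_mem hconv hcl h1 hmul hwS n ht.le), ?_⟩
    have h0 : Tendsto (fun n : ℕ => Real.exp (-(t * n)) • (1 : M)) atTop (𝓝 ((0 : ℝ) • 1)) := by
      refine Tendsto.smul_const ?_ _
      refine Real.tendsto_exp_neg_atTop_nhds_zero.comp ?_
      exact Tendsto.const_mul_atTop ht tendsto_natCast_atTop_atTop
    have h2 := (hlim t ht).sub h0
    rw [zero_smul, sub_zero] at h2
    refine hLcl.mem_of_tendsto h2 (Eventually.of_forall fun n => ?_)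
    have : E w n t - Real.exp (-(t * n)) • (1 : M)
        = Real.exp (-(t * n)) • (exp (t • ∑ k ∈ Finset.range n, w k) - 1) := by
      rw [E, smul_sub]
    rw [this, hsum]
    exact L.smul_mem _ (exp_sub_one_mem hLcl hLl (L.smul_mem _ (hseqL n)))
  · intro i
    have hc1 : ContinuousOn (fun t => φ i (F t)) (Icc 0 1) := by
      have e : EqOn (fun t => φ i (F t)) (fun t => φ i 1 + ∑' n, φ i (D n t)) (Icc 0 1) := by
        intro t ht
        simp only [F]
        rw [map_add]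
        congr 1
        rcases ht.1.eq_or_lt with h0 | h0
        · subst h0; simp [hD0]
        · exact (φ i).map_tsum (hDs t h0)
      refine ContinuousOn.congr ?_ e
      refine continuousOn_const.add (continuousOn_tsum
        (u := fun n => (1 / 2 : ℝ) ^ n + if n ≤ i then 2 * ‖φ i‖ else 0)
        (fun n => ((φ i).continuous.comp (hDc n)).continuousOn) ?_ ?_)
      · refine (summable_geometric_of_lt_one (by norm_num) (by norm_num)).add ?_
        refine summable_of_ne_finset_zero (s := Finset.range (i + 1)) fun n hn => ?_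
        rw [Finset.mem_range, not_lt] at hn
        rw [if_neg (by omega)]
      · intro n t ht
        by_cases hn : n ≤ i
        · simp only [if_pos hn]
          have h2 : ‖φ i (D n t)‖ ≤ ‖φ i‖ * 2 := by
            refine ((φ i).le_opNorm _).trans (mul_le_mul_of_nonneg_left ?_ (norm_nonneg _))
            refine (norm_sub_le _ _).trans ?_
            linarith [hE1 (n + 1) t ht.1, hE1 n t ht.1]
          have : (0 : ℝ) ≤ (1 / 2) ^ n := by positivity
          linarith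
        · simp only [if_neg hn, add_zero]
          exact htest i n t (by omega) ht.1 ht.2
    intro t ht
    rcases (mem_Ici.mp ht).eq_or_lt with h0 | h0
    · subst h0
      have := hc1 0 ⟨le_rfl, zero_le_one⟩
      refine this.mono_of_mem_nhdsWithin ?_
      exact Icc_mem_nhdsGE (by norm_num)
    · exact ((φ i).continuous.continuousAt.comp
        (hcontF.continuousAt (Ioi_mem_nhds h0))).continuousWithinAt

end Semigroup

end Pool.Agent.Lib.MP_893ae4_an
end

section

section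

/-!
States on (possibly non-unital) C*-algebras: convexity, closedness, characters and vector
functionals of nondegenerate representations.
-/

set_option linter.style.haveILetI false

open Filter Topology Set
open scoped ComplexOrder InnerProductSpace

namespace Pool.Agent.Lib.MP_893ae4_an

variable {A : Type*} [NonUnitalCStarAlgebra A]

variable (A) in
theorem exists_approx : ∃ l : Filter A, l.NeBot ∧ (∀ a : A, Tendsto (fun e => e * a) l (𝓝 a)) ∧
    (∀ᶠ e in l, ‖e‖ ≤ 1) ∧ ∀ᶠ e in l, star e = e := by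
  letI := CStarAlgebra.spectralOrder A
  haveI := CStarAlgebra.spectralOrderedRing A
  have h := CStarAlgebra.increasingApproximateUnit A
  exact ⟨CStarAlgebra.approximateUnit A, inferInstance, h.tendsto_mul_right,
    h.eventually_norm, h.eventually_star_eq⟩

theorem cauchy_schwarz {f : StrongDual ℂ A} (hf : ∀ a : A, 0 ≤ f (star a * a)) (a b : A) :
    ‖f (star a * b)‖ ^ 2 ≤ (f (star a * a)).re * (f (star b * b)).re := by
  letI := CStarAlgebra.spectralOrder A
  haveI := CStarAlgebra.spectralOrderedRing A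
  let P : A →ₚ[ℂ] ℂ := PositiveLinearMap.mk₀ f.toLinearMap (by
    intro x hx
    obtain ⟨y, rfl⟩ := CStarAlgebra.nonneg_iff_eq_star_mul_self.mp hx
    exact hf y)
  have h := norm_inner_le_norm (𝕜 := ℂ) (P.toPreGNS a) (P.toPreGNS b)
  have h1 : ⟪P.toPreGNS a, P.toPreGNS b⟫_ℂ = f (star a * b) := rfl
  have h2 : ∀ c : A, ‖P.toPreGNS c‖ ^ 2 = (f (star c * c)).re := by
    intro c
    have := P.preGNS_norm_sq (P.toPreGNS c)
    have h3 : P (star (P.ofPreGNS (P.toPreGNS c)) * P.ofPreGNS (P.toPreGNS c))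
      = f (star c * c) := rfl
    rw [h3] at this
    rw [← this]
    norm_cast
  rw [h1] at h
  rw [← h2, ← h2, ← mul_pow]
  exact pow_le_pow_left₀ (norm_nonneg _) h 2

theorem re_apply_le {f : StrongDual ℂ A} (e : A) (he : ‖e‖ ≤ 1) :
    (f (star e * e)).re ≤ ‖f‖ := by
  refine (Complex.re_le_norm _).trans ((f.le_opNorm _).trans ?_)
  refine mul_le_of_le_one_right (norm_nonneg _) ?_
  rw [CStarRing.norm_star_mul_self]
  nlinarith [norm_nonneg e]

theorem state_tendsto {f : StrongDual ℂ A} (hf : IsState f) {l : Filter A}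
    (hl : ∀ a : A, Tendsto (fun e => e * a) l (𝓝 a)) (hl1 : ∀ᶠ e in l, ‖e‖ ≤ 1)
    (hl2 : ∀ᶠ e in l, star e = e) :
    Tendsto (fun e => (f (star e * e)).re) l (𝓝 1) := by
  rw [tendsto_order]
  constructor
  · intro c hc
    by_cases hc0 : c < 0
    · refine Eventually.of_forall fun e => lt_of_lt_of_le hc0 ?_
      exact (Complex.nonneg_iff.mp (hf.1 e)).1
    rw [not_lt] at hc0
    have hs : Real.sqrt c < ‖f‖ := by
      rw [hf.2, Real.sqrt_lt' one_pos]; simpa using hc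
    obtain ⟨a, ha, hfa⟩ := f.exists_lt_apply_of_lt_opNorm hs
    have h1 : Tendsto (fun e => ‖f (e * a)‖) l (𝓝 ‖f a‖) :=
      ((f.continuous.tendsto _).comp (hl a)).norm
    filter_upwards [h1.eventually (lt_mem_nhds hfa), hl2] with e he he2
    have h2 := cauchy_schwarz hf.1 e a
    rw [he2] at h2
    have h3 : (f (star a * a)).re ≤ 1 := by
      have := re_apply_le (f := f) a ha.le
      rwa [hf.2] at this
    have h4 : 0 ≤ (f (e * e)).re := by
      have := (Complex.nonneg_iff.mp (hf.1 e)).1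
      rwa [he2] at this
    have h5 : c < ‖f (e * a)‖ ^ 2 := by
      have := Real.lt_sq_of_sqrt_lt he
      exact this
    rw [he2]
    nlinarith
  · intro c hc
    filter_upwards [hl1] with e he
    have := re_apply_le (f := f) e he
    rw [hf.2] at this
    linarith

theorem convex_state : Convex ℝ {f : StrongDual ℂ A | IsState f} := by
  intro f hf g hg a b ha hb hab
  obtain ⟨l, hne, hl, hl1, hl2⟩ := exists_approx A
  have hval : ∀ x : A, (a • f + b • g) x = a * f x + b * g x := by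
    intro x
    simp
  refine ⟨fun x => ?_, le_antisymm ?_ ?_⟩
  · rw [hval]
    exact add_nonneg (mul_nonneg (by exact_mod_cast ha) (hf.1 x))
      (mul_nonneg (by exact_mod_cast hb) (hg.1 x))
  · refine (norm_add_le _ _).trans ?_
    rw [norm_smul, norm_smul, hf.2, hg.2, Real.norm_eq_abs, Real.norm_eq_abs, abs_of_nonneg ha,
      abs_of_nonneg hb]
    linarith
  · have h1 : Tendsto (fun e => ((a • f + b • g) (star e * e)).re) l (𝓝 1) := by
      have h2 := ((state_tendsto hf hl hl1 hl2).const_mul a).add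
        ((state_tendsto hg hl hl1 hl2).const_mul b)
      rw [mul_one, mul_one, hab] at h2
      refine h2.congr fun e => ?_
      rw [hval]
      simp
    refine le_of_tendsto h1 ?_
    filter_upwards [hl1] with e he
    exact re_apply_le e he

theorem isClosed_state : IsClosed {f : StrongDual ℂ A | IsState f} := by
  have h1 : {f : StrongDual ℂ A | IsState f}
      = (⋂ a : A, {f | 0 ≤ f (star a * a)}) ∩ {f | ‖f‖ = 1} := by
    ext f
    simp [IsState]
  rw [h1]
  refine (isClosed_iInter fun a => ?_).inter (isClosed_eq continuous_norm continuous_const)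
  have h2 : Continuous fun f : StrongDual ℂ A => f (star a * a) :=
    (ContinuousLinearMap.apply ℂ ℂ (star a * a)).continuous
  exact isClosed_le continuous_const h2

/-- A nonzero character is a state. -/
theorem isState_character {ε : StrongDual ℂ A} (hmul : ∀ a b, ε (a * b) = ε a * ε b)
    (hstar : ∀ a, ε (star a) = star (ε a)) (hne : ε ≠ 0) : IsState ε := by
  have hsq : ∀ a, ε (star a * a) = ((‖ε a‖ ^ 2 : ℝ) : ℂ) := by
    intro a
    rw [hmul, hstar]
    push_cast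
    exact Complex.conj_mul' (ε a)
  refine ⟨fun a => ?_, le_antisymm ?_ ?_⟩
  · rw [hsq]
    exact_mod_cast sq_nonneg ‖ε a‖
  · have h1 : ‖ε‖ ≤ Real.sqrt ‖ε‖ := by
      refine ε.opNorm_le_bound (Real.sqrt_nonneg _) fun a => ?_
      have h2 : ‖ε a‖ ^ 2 ≤ ‖ε‖ * ‖a‖ ^ 2 := by
        have h3 := ε.le_opNorm (star a * a)
        rw [hsq, CStarRing.norm_star_mul_self] at h3
        rw [Complex.norm_real, Real.norm_eq_abs, abs_of_nonneg (sq_nonneg _)] at h3
        rw [sq ‖a‖]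
        exact h3
      have h4 := Real.sqrt_le_sqrt h2
      rw [Real.sqrt_sq (norm_nonneg _), Real.sqrt_mul (norm_nonneg _),
        Real.sqrt_sq (norm_nonneg _)] at h4
      exact h4
    by_contra h5
    rw [not_le] at h5
    have h6 : Real.sqrt ‖ε‖ < ‖ε‖ := by
      rw [Real.sqrt_lt' (by linarith)]
      nlinarith
    linarith
  · obtain ⟨l, hnb, hl, hl1, -⟩ := exists_approx A
    obtain ⟨a, ha⟩ : ∃ a, ε a ≠ 0 := by
      by_contra h
      push Not at h
      exact hne (ContinuousLinearMap.ext h)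
    have h1 : Tendsto (fun e => ε (e * a)) l (𝓝 (ε a)) := (ε.continuous.tendsto _).comp (hl a)
    have h2 : Tendsto (fun e => ε e) l (𝓝 1) := by
      have h3 := h1.mul_const (ε a)⁻¹
      rw [mul_inv_cancel₀ ha] at h3
      refine h3.congr fun e => ?_
      rw [hmul, mul_assoc, mul_inv_cancel₀ ha, mul_one]
    have h4 := h2.norm
    rw [norm_one] at h4
    refine le_of_tendsto h4 ?_
    filter_upwards [hl1] with e he
    exact (ε.le_opNorm e).trans (mul_le_of_le_one_right (norm_nonneg _) he)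

section Rep
variable {H : Type*} [NormedAddCommGroup H] [InnerProductSpace ℂ H] [CompleteSpace H]

theorem norm_rep_le (π : A →⋆ₙₐ[ℂ] (H →L[ℂ] H)) (a : A) : ‖π a‖ ≤ ‖a‖ :=
  NonUnitalStarAlgHom.norm_apply_le π a

/-- The vector functional `a ↦ ⟪ξ, π(a) η⟫` of a representation. -/
noncomputable def vecFunctional (π : A →⋆ₙₐ[ℂ] (H →L[ℂ] H)) (ξ η : H) : StrongDual ℂ A :=
  LinearMap.mkContinuous
    { toFun := fun a => ⟪ξ, π a η⟫_ℂ
      map_add' := fun a b => by simp
      map_smul' := fun c a => by simp }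
    (‖ξ‖ * ‖η‖) (fun a => by
      refine (norm_inner_le_norm _ _).trans ?_
      have h := (π a).le_opNorm η
      have h2 := norm_rep_le π a
      calc ‖ξ‖ * ‖π a η‖ ≤ ‖ξ‖ * (‖a‖ * ‖η‖) := by
            refine mul_le_mul_of_nonneg_left (h.trans ?_) (norm_nonneg _)
            exact mul_le_mul_of_nonneg_right h2 (norm_nonneg _)
        _ = ‖ξ‖ * ‖η‖ * ‖a‖ := by ring)

@[simp] theorem vecFunctional_apply (π : A →⋆ₙₐ[ℂ] (H →L[ℂ] H)) (ξ η : H) (a : A) :
    vecFunctional π ξ η a = ⟪ξ, π a η⟫_ℂ := rfl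

theorem rep_tendsto {π : A →⋆ₙₐ[ℂ] (H →L[ℂ] H)} (hπ : Nondegenerate π) {l : Filter A}
    (hl : ∀ a : A, Tendsto (fun e => e * a) l (𝓝 a)) (hl1 : ∀ᶠ e in l, ‖e‖ ≤ 1) (ξ : H) :
    Tendsto (fun e => π e ξ) l (𝓝 ξ) := by
  have hcont : Continuous π := by
    refine (LipschitzWith.of_dist_le_mul (K := 1) fun a b => ?_).continuous
    rw [dist_eq_norm, dist_eq_norm, ← map_sub]
    simpa using norm_rep_le π (a - b)
  have h1 : ∀ ζ ∈ Submodule.span ℂ {ζ : H | ∃ a η, π a η = ζ},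
      Tendsto (fun e => π e ζ) l (𝓝 ζ) := by
    intro ζ hζ
    induction hζ using Submodule.span_induction with
    | mem x hx =>
      obtain ⟨a, η, rfl⟩ := hx
      have h2 : Tendsto (fun e => π (e * a)) l (𝓝 (π a)) := (hcont.tendsto _).comp (hl a)
      have h3 := ((ContinuousLinearMap.apply ℂ H η).continuous.tendsto _).comp h2
      refine h3.congr fun e => ?_
      simp [map_mul]
    | zero => simpa using tendsto_const_nhds
    | add x y _ _ hx hy => simpa using hx.add hy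
    | smul c x _ hx => simpa using hx.const_smul c
  have hξ : ξ ∈ closure ((Submodule.span ℂ {ζ : H | ∃ a η, π a η = ζ} : Submodule ℂ H) : Set H) := by
    have h2 : ξ ∈ (Submodule.span ℂ {ζ : H | ∃ a η, π a η = ζ}).topologicalClosure := by
      rw [hπ]; trivial
    exact h2
  rw [Metric.tendsto_nhds]
  intro δ hδ
  obtain ⟨ζ, hζ, hd⟩ := Metric.mem_closure_iff.mp hξ (δ / 3) (by positivity)
  filter_upwards [(Metric.tendsto_nhds.mp (h1 ζ hζ)) (δ / 3) (by positivity), hl1] with e he he1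
  have h4 : dist (π e ξ) (π e ζ) ≤ dist ξ ζ := by
    rw [dist_eq_norm, dist_eq_norm, ← map_sub]
    refine ((π e).le_opNorm _).trans (mul_le_of_le_one_left (norm_nonneg _) ?_)
    exact (norm_rep_le π e).trans he1
  calc dist (π e ξ) ξ ≤ dist (π e ξ) (π e ζ) + dist (π e ζ) ζ + dist ζ ξ := dist_triangle4 _ _ _ _
    _ < δ := by rw [dist_comm ζ ξ]; linarith

theorem isState_vec {π : A →⋆ₙₐ[ℂ] (H →L[ℂ] H)} (hπ : Nondegenerate π) {ξ : H} (hξ : ‖ξ‖ = 1) :
    IsState (vecFunctional π ξ ξ) := by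
  refine ⟨fun a => ?_, le_antisymm ?_ ?_⟩
  · have : vecFunctional π ξ ξ (star a * a) = ⟪π a ξ, π a ξ⟫_ℂ := by
      rw [vecFunctional_apply, map_mul, map_star, mul_apply_eq_comp,
        ContinuousLinearMap.star_eq_adjoint, ContinuousLinearMap.adjoint_inner_right]
    rw [this, inner_self_eq_norm_sq_to_K]
    norm_cast
    positivity
  · refine (LinearMap.mkContinuous_norm_le _ (by positivity) _).trans ?_
    rw [hξ]; norm_num
  · obtain ⟨l, hnb, hl, hl1, -⟩ := exists_approx A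
    have h1 : Tendsto (fun e => vecFunctional π ξ ξ e) l (𝓝 ⟪ξ, ξ⟫_ℂ) := by
      simp only [vecFunctional_apply]
      exact tendsto_const_nhds.inner (rep_tendsto hπ hl hl1 ξ)
    have h2 := h1.norm
    rw [inner_self_eq_norm_sq_to_K, hξ] at h2
    simp only [Complex.coe_algebraMap, Complex.ofReal_one, one_pow, norm_one] at h2
    refine le_of_tendsto h2 ?_
    filter_upwards [hl1] with e he
    exact ((vecFunctional π ξ ξ).le_opNorm e).trans (mul_le_of_le_one_right (norm_nonneg _) he)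

end Rep

end Pool.Agent.Lib.MP_893ae4_an
end

section

/-!
If `π` is a faithful nondegenerate representation then every character of `A` is a weak* limit
of convex combinations of vector states of `π`.
-/

open Filter Topology Set
open scoped ComplexOrder InnerProductSpace

namespace Pool.Agent.Lib.MP_893ae4_an

variable {A : Type*} [NonUnitalCStarAlgebra A]
variable {H : Type*} [NormedAddCommGroup H] [InnerProductSpace ℂ H] [CompleteSpace H]

theorem norm_le_of_quadratic {T : H →L[ℂ] H} (hT : IsSelfAdjoint T) {r : ℝ} (hr : 0 ≤ r)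
    (h0 : ∀ ξ, 0 ≤ (⟪T ξ, ξ⟫_ℂ).re) (h1 : ∀ ξ, (⟪T ξ, ξ⟫_ℂ).re ≤ r * ‖ξ‖ ^ 2) : ‖T‖ ≤ r := by
  have hTpos : 0 ≤ T := by
    rw [ContinuousLinearMap.nonneg_iff_isPositive, ContinuousLinearMap.isPositive_def']
    exact ⟨hT, fun ξ => h0 ξ⟩
  rw [CStarAlgebra.norm_le_iff_le_algebraMap T hr hTpos, ContinuousLinearMap.le_def,
    ContinuousLinearMap.isPositive_def']
  refine ⟨(IsSelfAdjoint.algebraMap _ (IsSelfAdjoint.all r)).sub hT, fun ξ => ?_⟩
  have e : (algebraMap ℝ (H →L[ℂ] H) r - T) ξ = (r : ℂ) • ξ - T ξ := by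
    rw [Algebra.algebraMap_eq_smul_one]
    simp
  rw [ContinuousLinearMap.reApplyInnerSelf_apply, e, inner_sub_left, inner_smul_left,
    inner_self_eq_norm_sq_to_K]
  have h2 := h1 ξ
  have h3 : RCLike.re ((starRingEnd ℂ) (r : ℂ) * ((‖ξ‖ : ℂ)) ^ 2 - ⟪T ξ, ξ⟫_ℂ)
      = r * ‖ξ‖ ^ 2 - (⟪T ξ, ξ⟫_ℂ).re := by
    rw [Complex.conj_ofReal, map_sub]
    congr 1
    norm_cast
  have h4 : RCLike.re ((starRingEnd ℂ) (r : ℂ) * (((‖ξ‖ : ℝ) : ℂ)) ^ 2 - ⟪T ξ, ξ⟫_ℂ)
      = r * ‖ξ‖ ^ 2 - (⟪T ξ, ξ⟫_ℂ).re := h3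
  calc (0 : ℝ) ≤ r * ‖ξ‖ ^ 2 - (⟪T ξ, ξ⟫_ℂ).re := by linarith
    _ = _ := h4.symm

theorem char_le_aux {π : A →⋆ₙₐ[ℂ] (H →L[ℂ] H)} (hinj : Function.Injective π)
    {ε : StrongDual ℂ A} (hε : ‖ε‖ ≤ 1) (hmul : ∀ a b, ε (a * b) = ε a * ε b) {x : A}
    (hx : IsSelfAdjoint x) {s u : ℝ} (hs : ε x = s) (hs0 : s ≠ 0)
    (hu : ∀ ξ : H, (⟪π x ξ, ξ⟫_ℂ).re ≤ u * ‖ξ‖ ^ 2) : s ≤ u := by
  by_contra hlt
  rw [not_le] at hlt
  set c : ℝ := ‖x‖ with hc
  have hsc : |s| ≤ c := by
    have h1 := ε.le_opNorm x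
    rw [hs, Complex.norm_real, Real.norm_eq_abs] at h1
    exact h1.trans (mul_le_of_le_one_left (norm_nonneg _) hε)
  have hlow : ∀ ξ : H, -c * ‖ξ‖ ^ 2 ≤ (⟪π x ξ, ξ⟫_ℂ).re := by
    intro ξ
    have h1 : ‖⟪π x ξ, ξ⟫_ℂ‖ ≤ c * ‖ξ‖ ^ 2 := by
      refine (norm_inner_le_norm _ _).trans ?_
      have h2 := ((π x).le_opNorm ξ).trans
        (mul_le_mul_of_nonneg_right (norm_rep_le π x) (norm_nonneg ξ))
      rw [sq, ← mul_assoc]
      exact mul_le_mul_of_nonneg_right h2 (norm_nonneg _)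
    have h3 := Complex.abs_re_le_norm (⟪π x ξ, ξ⟫_ℂ)
    have h4 := neg_abs_le (⟪π x ξ, ξ⟫_ℂ).re
    linarith
  have huc : 0 ≤ u + c := by
    rcases subsingleton_or_nontrivial H with hH | hH
    · exfalso
      have h1 : π x = π 0 := by
        ext ξ
        exact Subsingleton.elim _ _
      have h2 : x = 0 := hinj h1
      rw [h2, map_zero] at hs
      exact hs0 (by exact_mod_cast hs.symm)
    · obtain ⟨ξ, hξ⟩ := exists_ne (0 : H)
      have h1 := (hlow ξ).trans (hu ξ)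
      have h2 : 0 < ‖ξ‖ ^ 2 := by positivity
      nlinarith
  set T : H →L[ℂ] H := π x + (c : ℂ) • 1 with hT
  have hTn : ‖T‖ ≤ u + c := by
    have hTapp : ∀ ξ, (⟪T ξ, ξ⟫_ℂ).re = (⟪π x ξ, ξ⟫_ℂ).re + c * ‖ξ‖ ^ 2 := by
      intro ξ
      have e : T ξ = π x ξ + (c : ℂ) • ξ := by simp [hT]
      rw [e, inner_add_left, inner_smul_left, inner_self_eq_norm_sq_to_K, Complex.conj_ofReal,
        Complex.add_re]
      congr 1
      have e2 : ((((‖ξ‖ : ℝ) : ℂ)) ^ 2 : ℂ) = ((‖ξ‖ ^ 2 : ℝ) : ℂ) := by push_cast; rfl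
      calc ((c : ℂ) * (((‖ξ‖ : ℝ) : ℂ)) ^ 2).re = ((c : ℂ) * ((‖ξ‖ ^ 2 : ℝ) : ℂ)).re := by rw [e2]
        _ = c * ‖ξ‖ ^ 2 := by rw [Complex.re_ofReal_mul, Complex.ofReal_re]
    refine norm_le_of_quadratic ?_ huc (fun ξ => ?_) (fun ξ => ?_)
    · refine (hx.map π).add ?_
      exact IsSelfAdjoint.smul (by rw [isSelfAdjoint_iff]; exact Complex.conj_ofReal c)
        (IsSelfAdjoint.one _)
    · rw [hTapp]
      have := hlow ξ
      linarith
    · rw [hTapp]
      have := hu ξ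
      linarith
  let z : ℕ → A := fun n => Nat.rec x (fun _ y => y * x + (c : ℂ) • y) n
  have hz : ∀ n, z (n + 1) = z n * x + (c : ℂ) • z n := fun n => rfl
  have hπz : ∀ n, π (z n) = π x * T ^ n := by
    intro n
    induction n with
    | zero => simp [z]
    | succ n ih =>
      rw [hz, map_add, map_mul, map_smul, ih, pow_succ, ← mul_assoc, hT, mul_add,
        mul_smul_comm, mul_one]
  have hεz : ∀ n, ε (z n) = ((s * (s + c) ^ n : ℝ) : ℂ) := by
    intro n
    induction n with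
    | zero => simp [z, hs]
    | succ n ih =>
      rw [hz, map_add, hmul, map_smul, ih, hs, smul_eq_mul]
      push_cast
      ring
  have hsc' : 0 < s + c := by linarith
  have hbound : ∀ n : ℕ, |s| * (s + c) ^ n ≤ c * (u + c) ^ n := by
    intro n
    have h1 : ‖ε (z n)‖ ≤ ‖z n‖ := (ε.le_opNorm _).trans
      (mul_le_of_le_one_left (norm_nonneg _) hε)
    rw [hεz, Complex.norm_real, Real.norm_eq_abs, abs_mul, abs_of_pos (pow_pos hsc' n)] at h1
    have h2 : ‖z n‖ = ‖π (z n)‖ := (NonUnitalStarAlgHom.norm_map π hinj (z n)).symm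
    rw [h2, hπz] at h1
    refine h1.trans ((norm_mul_le _ _).trans ?_)
    refine mul_le_mul (norm_rep_le π x) ?_ (norm_nonneg _) (norm_nonneg _)
    rcases Nat.eq_zero_or_pos n with hn | hn
    · subst hn
      simp only [pow_zero]
      exact ContinuousLinearMap.norm_id_le
    · exact (norm_pow_le' _ hn).trans (pow_le_pow_left₀ (norm_nonneg _) hTn n)
  have hratio : Tendsto (fun n : ℕ => c * ((u + c) / (s + c)) ^ n) atTop (𝓝 (c * 0)) := by
    refine Tendsto.const_mul _ (tendsto_pow_atTop_nhds_zero_of_lt_one (by positivity) ?_)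
    rw [div_lt_one hsc']
    linarith
  rw [mul_zero] at hratio
  have h0 : |s| ≤ 0 := by
    refine ge_of_tendsto' hratio fun n => ?_
    rw [div_pow, ← mul_div_assoc, le_div_iff₀ (pow_pos hsc' n)]
    exact hbound n
  exact hs0 (abs_eq_zero.mp (le_antisymm h0 (abs_nonneg _)))

theorem char_le {π : A →⋆ₙₐ[ℂ] (H →L[ℂ] H)} (hinj : Function.Injective π)
    {ε : StrongDual ℂ A} (hmul : ∀ a b, ε (a * b) = ε a * ε b)
    (hstar : ∀ a, ε (star a) = star (ε a)) (hne : ε ≠ 0) {x : A}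
    (hx : IsSelfAdjoint x) {s u : ℝ} (hs : ε x = s)
    (hu : ∀ ξ : H, (⟪π x ξ, ξ⟫_ℂ).re ≤ u * ‖ξ‖ ^ 2) : s ≤ u := by
  have hε : ‖ε‖ ≤ 1 := (isState_character hmul hstar hne).2.le
  by_cases hs0 : s = 0
  · subst hs0
    by_contra hlt
    rw [not_le] at hlt
    obtain ⟨p, hp⟩ : ∃ a, ε a ≠ 0 := by
      by_contra h
      push Not at h
      exact hne (ContinuousLinearMap.ext h)
    set q : A := star p * p with hq
    have hqs : IsSelfAdjoint q := IsSelfAdjoint.star_mul_self p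
    have hεq : ε q = ((‖ε p‖ ^ 2 : ℝ) : ℂ) := by
      rw [hq, hmul, hstar]
      push_cast
      exact Complex.conj_mul' (ε p)
    have hp2 : 0 < ‖ε p‖ ^ 2 := by positivity
    set lam : ℝ := -u / (2 * (‖q‖ + 1)) with hlam
    have hlam0 : 0 < lam := by
      rw [hlam]
      exact div_pos (by linarith) (by positivity)
    have hlq : lam * ‖q‖ ≤ -u / 2 := by
      rw [hlam, div_mul_eq_mul_div, div_le_div_iff₀ (by positivity) (by norm_num)]
      nlinarith [norm_nonneg q]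
    have key := char_le_aux (π := π) (x := x + (lam : ℂ) • q) (s := lam * ‖ε p‖ ^ 2)
      (u := u + lam * ‖q‖) hinj hε hmul ?_ ?_ ?_ ?_
    · have : 0 < lam * ‖ε p‖ ^ 2 := by positivity
      linarith
    · exact hx.add (IsSelfAdjoint.smul
        (by rw [isSelfAdjoint_iff]; exact Complex.conj_ofReal lam) hqs)
    · rw [map_add, map_smul, hs, hεq, smul_eq_mul]
      push_cast
      ring
    · positivity
    · intro ξ
      have e : ⟪π (x + (lam : ℂ) • q) ξ, ξ⟫_ℂ = ⟪π x ξ, ξ⟫_ℂ + lam * ⟪π q ξ, ξ⟫_ℂ := by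
        rw [map_add, map_smul]
        simp [inner_add_left, inner_smul_left]
      rw [e, Complex.add_re, Complex.re_ofReal_mul]
      have h1 : (⟪π q ξ, ξ⟫_ℂ).re ≤ ‖q‖ * ‖ξ‖ ^ 2 := by
        refine (Complex.re_le_norm _).trans ((norm_inner_le_norm _ _).trans ?_)
        have h2 := ((π q).le_opNorm ξ).trans
          (mul_le_mul_of_nonneg_right (norm_rep_le π q) (norm_nonneg ξ))
        rw [sq, ← mul_assoc]
        exact mul_le_mul_of_nonneg_right h2 (norm_nonneg _)
      have h2 := hu ξ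
      have h3 := mul_le_mul_of_nonneg_left h1 hlam0.le
      nlinarith
  · exact char_le_aux hinj hε hmul hx hs hs0 hu

/-- The convex hull of the vector states. -/
def normalStates (π : A →⋆ₙₐ[ℂ] (H →L[ℂ] H)) : Set (StrongDual ℂ A) :=
  convexHull ℝ {f | ∃ ξ : H, ‖ξ‖ = 1 ∧ f = vecFunctional π ξ ξ}

theorem sep_generic {E F : Type*} [AddCommGroup E] [Module ℂ E] [Module ℝ E]
    [IsScalarTower ℝ ℂ E] [AddCommGroup F] [Module ℂ F] (B : E →ₗ[ℂ] F →ₗ[ℂ] ℂ)
    (N : Set (WeakBilin B)) (hN : Convex ℝ N) (x : WeakBilin B) (hx : x ∉ closure N) :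
    ∃ (a : F) (u : ℝ), (∀ f ∈ N, (B f a).re ≤ u) ∧ u < (B x a).re := by
  have : ContinuousSMul ℝ (WeakBilin B) :=
    IsScalarTower.continuousSMul (M := ℝ) (α := WeakBilin B) ℂ
  obtain ⟨f, u, h1, h2⟩ := RCLike.geometric_hahn_banach_closed_point (𝕜 := ℂ)
    (Convex.closure hN) isClosed_closure hx
  obtain ⟨a, ha⟩ := LinearMap.dualEmbedding_surjective B f
  have ha' : ∀ μ : WeakBilin B, f μ = B μ a := fun μ => by rw [← ha]; rfl
  refine ⟨a, u, fun g hg => ?_, ?_⟩
  · have := h1 _ (subset_closure hg)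
    rw [ha'] at this
    exact this.le
  · rw [ha'] at h2
    exact h2

theorem sep_weakDual {E : Type*} [NormedAddCommGroup E] [NormedSpace ℂ E]
    (N : Set (StrongDual ℂ E)) (hN : Convex ℝ N) (x : StrongDual ℂ E)
    (hx : StrongDual.toWeakDual x ∉ closure (StrongDual.toWeakDual '' N)) :
    ∃ (a : E) (u : ℝ), (∀ f ∈ N, (f a).re ≤ u) ∧ u < (x a).re := by
  have himg : StrongDual.toWeakDual '' N = (N : Set (StrongDual ℂ E)) := by
    ext f
    constructor
    · rintro ⟨g, hg, rfl⟩; exact hg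
    · intro hf; exact ⟨f, hf, rfl⟩
  have := sep_generic (topDualPairing ℂ E) N hN x (by
    intro h
    apply hx
    rw [himg]
    exact h)
  exact this

theorem char_mem_closure {π : A →⋆ₙₐ[ℂ] (H →L[ℂ] H)} (hinj : Function.Injective π)
    {ε : StrongDual ℂ A} (hmul : ∀ a b, ε (a * b) = ε a * ε b)
    (hstar : ∀ a, ε (star a) = star (ε a)) (hne : ε ≠ 0) :
    StrongDual.toWeakDual ε ∈ closure (StrongDual.toWeakDual '' normalStates π) := by
  by_contra hcon
  obtain ⟨h, u, h1, h2⟩ := sep_weakDual _ (convex_convexHull ℝ _) ε hcon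
  have hunit : ∀ ξ : H, ‖ξ‖ = 1 → (⟪ξ, π h ξ⟫_ℂ).re ≤ u := fun ξ hξ =>
    h1 _ (subset_convexHull ℝ _ ⟨ξ, hξ, rfl⟩)
  have hquad : ∀ ξ : H, (⟪ξ, π h ξ⟫_ℂ).re ≤ u * ‖ξ‖ ^ 2 := by
    intro ξ
    rcases eq_or_ne ξ 0 with rfl | hξ
    · simp
    have hξn : ‖ξ‖ ≠ 0 := norm_ne_zero_iff.mpr hξ
    have h3 := hunit (((‖ξ‖ : ℂ))⁻¹ • ξ) (by
      rw [norm_smul, norm_inv, Complex.norm_real, norm_norm, inv_mul_cancel₀ hξn])
    rw [map_smul, inner_smul_left, inner_smul_right] at h3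
    have e : (starRingEnd ℂ) ((‖ξ‖ : ℂ))⁻¹ * (((‖ξ‖ : ℂ))⁻¹ * ⟪ξ, π h ξ⟫_ℂ)
        = (((‖ξ‖ ^ 2)⁻¹ : ℝ) : ℂ) * ⟪ξ, π h ξ⟫_ℂ := by
      rw [map_inv₀, Complex.conj_ofReal]
      push_cast
      ring
    rw [e, Complex.re_ofReal_mul, inv_mul_le_iff₀ (by positivity)] at h3
    linarith
  set x : A := ((1 / 2 : ℝ) : ℂ) • (h + star h) with hx
  have hxs : IsSelfAdjoint x :=
    IsSelfAdjoint.smul (by rw [isSelfAdjoint_iff]; exact Complex.conj_ofReal _)
      (IsSelfAdjoint.add_star_self h)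
  have hεx : ε x = (((ε h).re : ℝ) : ℂ) := by
    rw [hx, map_smul, map_add, hstar, smul_eq_mul]
    have : ε h + star (ε h) = ((2 * (ε h).re : ℝ) : ℂ) := Complex.add_conj (ε h)
    rw [this]
    push_cast
    ring
  have hle := char_le hinj hmul hstar hne hxs hεx (u := u) (fun ξ => ?_)
  · linarith
  · have e : (⟪π x ξ, ξ⟫_ℂ).re = (⟪ξ, π h ξ⟫_ℂ).re := by
      have e1 : π x ξ = ((1 / 2 : ℝ) : ℂ) • (π h ξ + (star (π h)) ξ) := by
        rw [hx, map_smul, map_add, map_star]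
        simp
      rw [e1, inner_smul_left, inner_add_left, Complex.conj_ofReal, Complex.re_ofReal_mul,
        Complex.add_re, ContinuousLinearMap.star_eq_adjoint,
        ContinuousLinearMap.adjoint_inner_left]
      have e2 : (⟪π h ξ, ξ⟫_ℂ).re = (⟪ξ, π h ξ⟫_ℂ).re := inner_re_symm (𝕜 := ℂ) _ _
      rw [e2]
      ring
    rw [e]
    exact hquad ξ

end Pool.Agent.Lib.MP_893ae4_an
end

section

/-!
Strong amenability and absolutely continuous convolution semigroups.
-/

open Filter Topology Set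
open scoped ComplexOrder InnerProductSpace NNReal

set_option linter.unusedSectionVars false

namespace Pool.Agent.Lib.MP_893ae4_an

variable {A : Type*} [NonUnitalCStarAlgebra A]
variable {H : Type*} [NormedAddCommGroup H] [InnerProductSpace ℂ H] [CompleteSpace H]

/-- `L¹`: the norm closure in the dual of `A` of the span of the vector functionals
`a ↦ ⟪ξ, π(a) η⟫`, i.e. the functionals on `A` that factor through `π` and extend to a normal
functional on the von Neumann algebra generated by `π(A)`. -/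
noncomputable def L1 (π : A →⋆ₙₐ[ℂ] (H →L[ℂ] H)) : Submodule ℂ (StrongDual ℂ A) :=
  (Submodule.span ℂ {f | ∃ ξ η : H, f = vecFunctional π ξ η}).topologicalClosure

theorem memL1_iff {π : A →⋆ₙₐ[ℂ] (H →L[ℂ] H)} {f : StrongDual ℂ A} : MemL1 π f ↔ f ∈ L1 π := by
  have h : {g : StrongDual ℂ A | ∃ ξ η : H, ∀ a, g a = ⟪ξ, π a η⟫_ℂ}
      = {f | ∃ ξ η : H, f = vecFunctional π ξ η} := by
    ext g
    refine exists_congr fun ξ => exists_congr fun η => ⟨fun h => ?_, fun h a => ?_⟩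
    · exact ContinuousLinearMap.ext h
    · rw [h, vecFunctional_apply]
  rw [MemL1, L1, h]

namespace QuantumGroupData

variable (D : QuantumGroupData A H)

theorem conv_assoc (μ ν ρ) : D.conv (D.conv μ ν) ρ = D.conv μ (D.conv ν ρ) :=
  D.isConvolution.assoc μ ν ρ
theorem norm_conv_le (μ ν) : ‖D.conv μ ν‖ ≤ ‖μ‖ * ‖ν‖ := D.isConvolution.norm_le μ ν
theorem conv_state (μ ν) (hμ : IsState μ) (hν : IsState ν) : IsState (D.conv μ ν) :=
  D.isConvolution.state μ ν hμ hν
theorem slice_right (ν : StrongDual ℂ A) (a : A) : ∃ b : A, ∀ μ, D.conv μ ν a = μ b :=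
  D.isConvolution.slice_right ν a
theorem slice_left (μ : StrongDual ℂ A) (a : A) : ∃ b : A, ∀ ν, D.conv μ ν a = ν b :=
  D.isConvolution.slice_left μ a
theorem counit_mul (a b : A) : D.counit (a * b) = D.counit a * D.counit b := D.isCounit.mul a b
theorem counit_star (a : A) : D.counit (star a) = star (D.counit a) := D.isCounit.star a
theorem counit_ne_zero : D.counit ≠ 0 := D.isCounit.ne_zero
theorem conv_counit (μ : StrongDual ℂ A) : D.conv μ D.counit = μ := D.isCounit.right μ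
theorem counit_conv (μ : StrongDual ℂ A) : D.conv D.counit μ = μ := D.isCounit.left μ
theorem rep_nondegenerate : Nondegenerate D.rep := D.isReducing.nondegenerate
theorem ideal_left (μ) : ∀ f ∈ L1 D.rep, D.conv μ f ∈ L1 D.rep :=
  fun f hf => memL1_iff.mp (D.isReducing.ideal_left μ f (memL1_iff.mpr hf))
theorem ideal_right (μ) : ∀ f ∈ L1 D.rep, D.conv f μ ∈ L1 D.rep :=
  fun f hf => memL1_iff.mp (D.isReducing.ideal_right μ f (memL1_iff.mpr hf))
theorem continuous_left : ∀ f ∈ L1 D.rep, ContinuousOnStates fun μ => D.conv μ f :=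
  fun f hf => D.isReducing.continuous_left f (memL1_iff.mpr hf)
theorem continuous_right : ∀ f ∈ L1 D.rep, ContinuousOnStates fun μ => D.conv f μ :=
  fun f hf => D.isReducing.continuous_right f (memL1_iff.mpr hf)

end QuantumGroupData

theorem apply_eq_zero_of_mem_L1 {π : A →⋆ₙₐ[ℂ] (H →L[ℂ] H)} {f : StrongDual ℂ A}
    (hf : f ∈ L1 π) {a : A} (ha : π a = 0) : f a = 0 := by
  have h1 : Submodule.span ℂ {f | ∃ ξ η : H, f = vecFunctional π ξ η}
      ≤ LinearMap.ker (ContinuousLinearMap.apply ℂ ℂ a : StrongDual ℂ A →L[ℂ] ℂ).toLinearMap := by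
    refine Submodule.span_le.mpr ?_
    rintro _ ⟨ξ, η, rfl⟩
    simp [ha]
  have h2 := Submodule.topologicalClosure_minimal _ h1
    (ContinuousLinearMap.isClosed_ker (ContinuousLinearMap.apply ℂ ℂ a : StrongDual ℂ A →L[ℂ] ℂ))
  exact h2 hf

/-- The easy direction. -/
theorem injective_of_semigroup (D : QuantumGroupData A H) {μ : ℝ≥0 → StrongDual ℂ A}
    (hμ : D.IsConvolutionSemigroup μ) (hL : ∀ t, 0 < t → μ t ∈ L1 D.rep) :
    Function.Injective D.rep := by
  rw [injective_iff_map_eq_zero]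
  intro a ha
  refine SeparatingDual.eq_zero_of_forall_dual_eq_zero (R := ℂ) fun ν => ?_
  obtain ⟨b, hb⟩ := D.slice_right ν a
  have h1 : ∀ t, 0 < t → μ t b = 0 := by
    intro t ht
    rw [← hb]
    exact apply_eq_zero_of_mem_L1 (D.ideal_right ν _ (hL t ht)) ha
  have h2 : Tendsto (fun t : ℝ≥0 => μ t b) (𝓝[>] 0) (𝓝 (μ 0 b)) :=
    ((hμ.continuous b).tendsto 0).mono_left nhdsWithin_le_nhds
  have h3 : μ 0 b = 0 := by
    refine tendsto_nhds_unique h2 ?_
    refine Tendsto.congr' ?_ tendsto_const_nhds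
    filter_upwards [self_mem_nhdsWithin] with t ht
    exact (h1 t ht).symm
  rw [hμ.zero, ← hb, D.counit_conv] at h3
  exact h3

theorem normalStates_state {π : A →⋆ₙₐ[ℂ] (H →L[ℂ] H)} (hπ : Nondegenerate π) :
    normalStates π ⊆ {f | IsState f} := by
  refine convexHull_min ?_ convex_state
  rintro _ ⟨ξ, hξ, rfl⟩
  exact isState_vec hπ hξ

theorem normalStates_L1 {π : A →⋆ₙₐ[ℂ] (H →L[ℂ] H)} :
    normalStates π ⊆ (L1 π : Set (StrongDual ℂ A)) := by
  refine convexHull_min ?_ ((L1 π).restrictScalars ℝ).convex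
  rintro _ ⟨ξ, hξ, rfl⟩
  exact Submodule.le_topologicalClosure _ (Submodule.subset_span ⟨ξ, ξ, rfl⟩)

section Slices
variable (D : QuantumGroupData A H)

/-- `(id ⊗ ν)Δ(a)`. -/
noncomputable def slice (ν : StrongDual ℂ A) (a : A) : A := (D.slice_right ν a).choose

theorem slice_spec (μ ν : StrongDual ℂ A) (a : A) : D.conv μ ν a = μ (slice D ν a) :=
  (D.slice_right ν a).choose_spec μ

theorem eq_of_dual {x y : A} (h : ∀ μ : StrongDual ℂ A, μ x = μ y) : x = y := by
  rw [← sub_eq_zero]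
  refine SeparatingDual.eq_zero_of_forall_dual_eq_zero (R := ℂ) fun μ => ?_
  rw [map_sub, h, sub_self]

/-- `w ↦ (id ⊗ (w ⋆ c))Δ(a)` as a linear map. -/
noncomputable def sliceLin (c : StrongDual ℂ A) (a : A) : StrongDual ℂ A →ₗ[ℂ] A where
  toFun w := slice D (D.conv w c) a
  map_add' w w' := by
    refine eq_of_dual fun μ => ?_
    rw [← slice_spec, map_add D.conv, LinearMap.add_apply, map_add (D.conv μ),
      add_apply, map_add μ, ← slice_spec, ← slice_spec]
  map_smul' r w := by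
    refine eq_of_dual fun μ => ?_
    rw [RingHom.id_apply, ← slice_spec, map_smul D.conv, LinearMap.smul_apply,
      map_smul (D.conv μ), smul_apply, map_smul μ, ← slice_spec]

theorem sliceLin_apply (c : StrongDual ℂ A) (a : A) (w μ : StrongDual ℂ A) :
    μ (sliceLin D c a w) = D.conv μ (D.conv w c) a := (slice_spec D _ _ _).symm

end Slices

theorem mazur {V Y : Type*} [AddCommGroup V] [Module ℂ V] [Module ℝ V] [IsScalarTower ℝ ℂ V]
    [NormedAddCommGroup Y] [NormedSpace ℂ Y] [NormedSpace ℝ Y] [IsScalarTower ℝ ℂ Y]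
    {N : Set V} (hN : Convex ℝ N) (T : V →ₗ[ℂ] Y) (x : V) (l : Filter V) [l.NeBot]
    (hlN : ∀ᶠ w in l, w ∈ N)
    (h : ∀ f : StrongDual ℂ Y, Tendsto (fun w => f (T w)) l (𝓝 (f (T x)))) {δ : ℝ} (hδ : 0 < δ) :
    ∃ w ∈ N, ‖T (w - x)‖ ≤ δ := by
  have hkey : T x ∈ closure (T '' N) := by
    by_contra hcon
    have hconvT : Convex ℝ (closure (T '' N)) := by
      refine Convex.closure ?_
      rintro _ ⟨f, hf, rfl⟩ _ ⟨g, hg, rfl⟩ r s hr hs hrs
      refine ⟨r • f + s • g, hN hf hg hr hs hrs, ?_⟩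
      have e : ∀ (r : ℝ) (f : V), T (r • f) = r • T f := fun r f => by
        rw [← algebraMap_smul ℂ r f, map_smul, algebraMap_smul]
      rw [map_add, e, e]
    obtain ⟨f, u, h1, h2⟩ := RCLike.geometric_hahn_banach_closed_point (𝕜 := ℂ)
      hconvT isClosed_closure hcon
    have hre : Tendsto (fun w => RCLike.re (f (T w))) l (𝓝 (RCLike.re (f (T x)))) :=
      (RCLike.continuous_re.tendsto _).comp (h f)
    have : RCLike.re (f (T x)) ≤ u := by
      refine le_of_tendsto hre ?_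
      filter_upwards [hlN] with w hw
      exact (h1 _ (subset_closure ⟨w, hw, rfl⟩)).le
    linarith
  obtain ⟨_, ⟨w, hw, rfl⟩, hdist⟩ := Metric.mem_closure_iff.mp hkey δ hδ
  rw [dist_comm, dist_eq_norm, ← map_sub] at hdist
  exact ⟨w, hw, hdist.le⟩

/-- A form of Mazur's theorem for finitely many linear maps. -/
theorem mazur' {V Y Z ι : Type*} [AddCommGroup V] [Module ℂ V] [Module ℝ V] [IsScalarTower ℝ ℂ V]
    [NormedAddCommGroup Y] [NormedSpace ℂ Y] [NormedSpace ℝ Y] [IsScalarTower ℝ ℂ Y]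
    [NormedAddCommGroup Z] [NormedSpace ℂ Z] [NormedSpace ℝ Z] [IsScalarTower ℝ ℂ Z]
    [Fintype ι] [DecidableEq ι]
    {N : Set V} (hN : Convex ℝ N) (T₁ T₂ : V →ₗ[ℂ] Y) (T₃ : ι → V →ₗ[ℂ] Z) (x : V)
    (l : Filter V) [l.NeBot] (hlN : ∀ᶠ w in l, w ∈ N)
    (h₁ : ∀ f : StrongDual ℂ Y, Tendsto (fun w => f (T₁ w)) l (𝓝 (f (T₁ x))))
    (h₂ : ∀ f : StrongDual ℂ Y, Tendsto (fun w => f (T₂ w)) l (𝓝 (f (T₂ x))))
    (h₃ : ∀ i, ∀ f : StrongDual ℂ Z, Tendsto (fun w => f (T₃ i w)) l (𝓝 (f (T₃ i x))))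
    {δ : ℝ} (hδ : 0 < δ) :
    ∃ w ∈ N, ‖T₁ (w - x)‖ ≤ δ ∧ ‖T₂ (w - x)‖ ≤ δ ∧ ∀ i, ‖T₃ i (w - x)‖ ≤ δ := by
  obtain ⟨w, hw, hwδ⟩ := mazur (Y := Y × Y × (ι → Z)) hN (T₁.prod (T₂.prod (LinearMap.pi T₃)))
    x l hlN (fun f => by
      have e : ∀ w, f ((T₁.prod (T₂.prod (LinearMap.pi T₃))) w)
          = (f.comp (ContinuousLinearMap.inl ℂ Y (Y × (ι → Z)))) (T₁ w)
            + ((f.comp (ContinuousLinearMap.inr ℂ Y (Y × (ι → Z)))).comp
                (ContinuousLinearMap.inl ℂ Y (ι → Z))) (T₂ w)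
            + ∑ i, (((f.comp (ContinuousLinearMap.inr ℂ Y (Y × (ι → Z)))).comp
                (ContinuousLinearMap.inr ℂ Y (ι → Z))).comp
                  (ContinuousLinearMap.single ℂ (fun _ => Z) i)) (T₃ i w) := by
        intro w
        set f3 := (f.comp (ContinuousLinearMap.inr ℂ Y (Y × (ι → Z)))).comp
                (ContinuousLinearMap.inr ℂ Y (ι → Z)) with hf3
        have h3 : f3 (fun i => T₃ i w) = ∑ i, f3 (Pi.single i (T₃ i w)) := by
          conv_lhs => rw [← Finset.univ_sum_single (fun i => T₃ i w), map_sum]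
        have h4 : (∑ i, (f3.comp (ContinuousLinearMap.single ℂ (fun _ => Z) i)) (T₃ i w))
            = ∑ i, f3 (Pi.single i (T₃ i w)) := rfl
        rw [h4, ← h3]
        have h5 : f ((T₁.prod (T₂.prod (LinearMap.pi T₃))) w)
            = f ((T₁ w, 0, 0) + (0, T₂ w, 0) + (0, 0, fun i => T₃ i w)) := by
          congr 1
          simp only [Prod.mk_add_mk, add_zero, zero_add]
          rfl
        rw [h5, map_add, map_add]
        rfl
      simp_rw [e]
      exact ((h₁ _).add (h₂ _)).add (tendsto_finsetSum _ fun i _ => h₃ i _)) hδ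
  refine ⟨w, hw, ?_, ?_, fun i => ?_⟩
  · exact (norm_fst_le ((T₁.prod (T₂.prod (LinearMap.pi T₃))) (w - x))).trans hwδ
  · exact ((norm_fst_le _).trans
      (norm_snd_le ((T₁.prod (T₂.prod (LinearMap.pi T₃))) (w - x)))).trans hwδ
  · have h1 : ‖((T₁.prod (T₂.prod (LinearMap.pi T₃))) (w - x)).2.2‖ ≤ δ :=
      ((norm_snd_le _).trans
        (norm_snd_le ((T₁.prod (T₂.prod (LinearMap.pi T₃))) (w - x)))).trans hwδ
    exact (norm_le_pi_norm _ i).trans h1

/-- Almost units in `L¹`. -/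
theorem exists_almost_unit (D : QuantumGroupData A H) (hinj : Function.Injective D.rep)
    {B : StrongDual ℂ A} (hB : B ∈ L1 D.rep) (n : ℕ) (C : ℕ → StrongDual ℂ A) (a : ℕ → A)
    {δ : ℝ} (hδ : 0 < δ) :
    ∃ w : StrongDual ℂ A, IsState w ∧ w ∈ L1 D.rep ∧ ‖D.conv w B - B‖ ≤ δ ∧
      ‖D.conv B w - B‖ ≤ δ ∧ ∀ i < n, ∀ j < n, ∀ m : StrongDual ℂ A,
        ‖D.conv m (D.conv (w - D.counit) (C j)) (a i)‖ ≤ δ * ‖m‖ := by
  have hNconv : Convex ℝ (normalStates D.rep) := convex_convexHull ℝ _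
  -- the filter
  let l : Filter (StrongDual ℂ A) :=
    comap StrongDual.toWeakDual (𝓝 (StrongDual.toWeakDual D.counit)) ⊓ 𝓟 (normalStates D.rep)
  have hne : l.NeBot := by
    have h1 := char_mem_closure hinj D.counit_mul D.counit_star D.counit_ne_zero
    rw [mem_closure_iff_clusterPt, ClusterPt] at h1
    have h2 : (map StrongDual.toWeakDual l).NeBot := by
      have e : map StrongDual.toWeakDual l = 𝓝 (StrongDual.toWeakDual D.counit)
          ⊓ 𝓟 (StrongDual.toWeakDual '' (normalStates D.rep)) := by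
        simp only [l]
        rw [Filter.push_pull', map_principal]
      rw [e]
      exact h1
    exact h2.of_map
  have hlN : ∀ᶠ w in l, w ∈ normalStates D.rep := mem_inf_of_right (mem_principal_self _)
  have hl0 : Tendsto (fun w : StrongDual ℂ A => StrongDual.toWeakDual w) l
      (𝓝 (StrongDual.toWeakDual D.counit)) := tendsto_comap.mono_left inf_le_left
  have hleval : ∀ b : A, Tendsto (fun w : StrongDual ℂ A => w b) l (𝓝 (D.counit b)) := fun b =>
    ((WeakDual.eval_continuous b).tendsto _).comp hl0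
  have hlw : Tendsto (fun w : StrongDual ℂ A => StrongDual.toWeakDual w) l
      (𝓝[{μ | IsState (WeakDual.toStrongDual μ)}] (StrongDual.toWeakDual D.counit)) := by
    refine tendsto_nhdsWithin_iff.mpr ⟨hl0, ?_⟩
    filter_upwards [hlN] with w hw
    exact normalStates_state D.rep_nondegenerate hw
  have hstate : StrongDual.toWeakDual D.counit ∈ {μ : WeakDual ℂ A |
      IsState (WeakDual.toStrongDual μ)} :=
    isState_character D.counit_mul D.counit_star D.counit_ne_zero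
  obtain ⟨w, hw, hw1, hw2, hw3⟩ := mazur' (ι := Fin n × Fin n) hNconv (D.conv.flip B) (D.conv B)
    (fun p => sliceLin D (C p.2) (a p.1)) D.counit l hlN
    (fun y => (D.continuous_left B hB y _ hstate).tendsto.comp hlw)
    (fun y => (D.continuous_right B hB y _ hstate).tendsto.comp hlw)
    (fun p y => by
      obtain ⟨b, hb⟩ := D.slice_left y (slice D (C p.2) (a p.1))
      have e : ∀ w, y (sliceLin D (C p.2) (a p.1) w) = w b := by
        intro w
        rw [sliceLin_apply, ← D.conv_assoc, slice_spec, hb]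
      simp_rw [e]
      exact hleval b) hδ
  refine ⟨w, normalStates_state D.rep_nondegenerate hw, normalStates_L1 hw, ?_, ?_, ?_⟩
  · rw [map_sub, LinearMap.flip_apply, LinearMap.flip_apply, D.counit_conv] at hw1
    exact hw1
  · rw [map_sub, D.conv_counit] at hw2
    exact hw2
  · intro i hi j hj m
    have h5 := hw3 (⟨i, hi⟩, ⟨j, hj⟩)
    rw [← sliceLin_apply]
    refine (m.le_opNorm _).trans ?_
    rw [mul_comm]
    exact mul_le_mul_of_nonneg_right h5 (norm_nonneg _)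

/-- The convolution algebra `C₀ᵘ(Γ)*`. -/
def ConvAlg (_D : QuantumGroupData A H) : Type _ := StrongDual ℂ A

namespace ConvAlg
variable (D : QuantumGroupData A H)

noncomputable instance : NormedAddCommGroup (ConvAlg D) :=
  inferInstanceAs (NormedAddCommGroup (StrongDual ℂ A))

noncomputable instance : NormedSpace ℂ (ConvAlg D) :=
  inferInstanceAs (NormedSpace ℂ (StrongDual ℂ A))

noncomputable instance : NormedSpace ℝ (ConvAlg D) :=
  inferInstanceAs (NormedSpace ℝ (StrongDual ℂ A))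

instance : IsScalarTower ℝ ℂ (ConvAlg D) :=
  inferInstanceAs (IsScalarTower ℝ ℂ (StrongDual ℂ A))

instance : CompleteSpace (ConvAlg D) :=
  inferInstanceAs (CompleteSpace (StrongDual ℂ A))

/-- Convolution on the type synonym. -/
noncomputable def mulLin : ConvAlg D →ₗ[ℂ] ConvAlg D →ₗ[ℂ] ConvAlg D := D.conv

theorem mulLin_smul_left (r : ℝ) (μ ν : ConvAlg D) : mulLin D (r • μ) ν = r • mulLin D μ ν := by
  rw [← algebraMap_smul ℂ r μ, map_smul, LinearMap.smul_apply, algebraMap_smul]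

theorem mulLin_smul_right (r : ℝ) (μ ν : ConvAlg D) : mulLin D μ (r • ν) = r • mulLin D μ ν := by
  rw [← algebraMap_smul ℂ r ν, map_smul, algebraMap_smul]

noncomputable instance : NormedRing (ConvAlg D) :=
  { (inferInstance : NormedAddCommGroup (ConvAlg D)) with
    mul := fun μ ν => mulLin D μ ν
    one := (D.counit : StrongDual ℂ A)
    left_distrib := fun μ ν ρ => map_add (mulLin D μ) ν ρ
    right_distrib := fun μ ν ρ => by
      change mulLin D (μ + ν) ρ = mulLin D μ ρ + mulLin D ν ρ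
      rw [map_add, LinearMap.add_apply]
    zero_mul := fun μ => by
      change mulLin D 0 μ = 0
      rw [map_zero, LinearMap.zero_apply]
    mul_zero := fun μ => map_zero (mulLin D μ)
    mul_assoc := fun μ ν ρ => D.conv_assoc μ ν ρ
    one_mul := fun μ => D.counit_conv μ
    mul_one := fun μ => D.conv_counit μ
    norm_mul_le := fun μ ν => D.norm_conv_le μ ν }

theorem mul_def (μ ν : ConvAlg D) : μ * ν = mulLin D μ ν := rfl

noncomputable instance : NormedAlgebra ℝ (ConvAlg D) :=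
  { Algebra.ofModule (R := ℝ) (A := ConvAlg D)
      (fun r μ ν => mulLin_smul_left D r μ ν)
      (fun r μ ν => mulLin_smul_right D r μ ν) with
    norm_smul_le := fun r μ => norm_smul_le r μ }

instance : NormOneClass (ConvAlg D) :=
  ⟨(isState_character D.counit_mul D.counit_star D.counit_ne_zero).2⟩

end ConvAlg

/-- The hard direction. -/
theorem exists_semigroup [TopologicalSpace.SeparableSpace A] (D : QuantumGroupData A H)
    (hinj : Function.Injective D.rep) :
    ∃ μ : ℝ≥0 → StrongDual ℂ A, D.IsConvolutionSemigroup μ ∧ ∀ t, 0 < t → μ t ∈ L1 D.rep := by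
  let a : ℕ → A := TopologicalSpace.denseSeq A
  let S : Set (ConvAlg D) := {μ : StrongDual ℂ A | IsState μ}
  let L : Submodule ℝ (ConvAlg D) := (L1 D.rep).restrictScalars ℝ
  let φ : ℕ → ConvAlg D →L[ℝ] ℂ := fun i =>
    ((ContinuousLinearMap.apply ℂ ℂ (a i) : StrongDual ℂ A →L[ℂ] ℂ).restrictScalars ℝ :
      StrongDual ℂ A →L[ℝ] ℂ)
  have hcounit : IsState D.counit :=
    isState_character D.counit_mul D.counit_star D.counit_ne_zero
  have hLcl : IsClosed ((L1 D.rep : Submodule ℂ (StrongDual ℂ A)) : Set (StrongDual ℂ A)) :=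
    Submodule.isClosed_topologicalClosure _
  obtain ⟨F, hF0, hFadd, hFmem, hFcont⟩ := core (M := ConvAlg D) (S := S) (L := L)
    (convex_state (A := A)) (isClosed_state (A := A)) hcounit
    (fun μ hμ ν hν => D.conv_state μ ν hμ hν) (fun μ hμ => hμ.2.le)
    hLcl (fun μ f hf => D.ideal_left μ f hf) φ
    (fun B hB n δ hδ => by
      obtain ⟨w, hw, hwL, h1, h2, h3⟩ := exists_almost_unit D hinj hB n
        (fun j => ((B + 1) ^ j : ConvAlg D)) a hδ
      exact ⟨w, hw, hwL, h1, h2, fun i hi j hj m => h3 i hi j hj m⟩)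
  let G : ℝ → StrongDual ℂ A := F
  refine ⟨fun t => G t, ⟨fun t => ?_, ?_, fun s t => ?_, fun b => ?_⟩, fun t ht => ?_⟩
  · rcases eq_or_lt_of_le t.2 with h | h
    · have h3 : G t = D.counit := by
        have h2 : (t : ℝ) = 0 := h.symm
        rw [h2]; exact hF0
      rw [h3]; exact hcounit
    · exact (hFmem t h).1
  · exact hF0
  · exact (hFadd s t s.2 t.2).symm
  · have hnorm : ∀ t : ℝ, 0 ≤ t → ‖G t‖ ≤ 1 := by
      intro t ht
      rcases eq_or_lt_of_le ht with h | h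
      · have h3 : G t = D.counit := by rw [← h]; exact hF0
        rw [h3]; exact hcounit.2.le
      · exact (hFmem t h).1.2.le
    have hc : ContinuousOn (fun t : ℝ => G t b) (Ici 0) := by
      refine continuousOn_of_uniform_approx_of_continuousOn fun u hu => ?_
      obtain ⟨ε, hε, hεu⟩ := Metric.mem_uniformity_dist.mp hu
      obtain ⟨i, hi⟩ := (TopologicalSpace.denseRange_denseSeq A).exists_dist_lt b hε
      refine ⟨fun t => φ i (F t), hFcont i, fun t ht => hεu ?_⟩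
      have e : dist (G t b) (φ i (F t)) = ‖G t (b - a i)‖ := by
        rw [dist_eq_norm, map_sub]
        rfl
      rw [e]
      refine ((G t).le_opNorm _).trans_lt ?_
      refine (mul_le_of_le_one_left (norm_nonneg _) (hnorm t ht)).trans_lt ?_
      rwa [← dist_eq_norm]
    exact hc.comp_continuous NNReal.continuous_coe fun t => t.2
  · exact (hFmem t ht).2

/-- **Main theorem.** -/
theorem stronglyAmenable_iff [TopologicalSpace.SeparableSpace A] (D : QuantumGroupData A H) :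
    D.StronglyAmenable ↔
      ∃ μ : ℝ≥0 → StrongDual ℂ A, D.IsConvolutionSemigroup μ ∧ ∀ t, 0 < t → MemL1 D.rep (μ t) :=
  ⟨fun h => (exists_semigroup D h).imp fun _ hμ => ⟨hμ.1, fun t ht => memL1_iff.mpr (hμ.2 t ht)⟩,
    fun ⟨_, hμ, hL⟩ => injective_of_semigroup D hμ fun t ht => memL1_iff.mp (hL t ht)⟩

end Pool.Agent.Lib.MP_893ae4_an
end
end
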